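import Mathlib

/-!
# A finitely generated, non residually finite group preserving a very full lamination

The circle is identified with the real line plus a point at infinity (the point `1`).
The group is generated by the translation `x + 2` and a piecewise affine increasing map `t` with
`t (x + 4) = t x + 6`, so that conjugation by `t` sends the square of the translation to its cube.
Both maps preserve a closed periodic Cantor type set `KC` and are affine on each of its gaps.
The leaves are the pairs (infinity, c) for `c` in `KC`, and the dyadic subdivision pairs in each gap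
of `KC`. All gaps of the lamination are ideal triangles.
-/

open Set Topology

namespace Pool.Agent.Results.MP_939d63_gt.NotRF

/-- Twice the signed Euclidean area of the triangle with vertices `a`, `b`, `c`. -/
noncomputable def area (a b c : ℂ) : ℝ :=
  (b.re - a.re) * (c.im - a.im) - (b.im - a.im) * (c.re - a.re)

/-- `a`, `b`, `c` are three distinct points of the circle, met in this order when one goes
around the circle counterclockwise. -/
def Ccw (a b c : Circle) : Prop := 0 < area a b c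

/-- A homeomorphism of the circle is orientation preserving when it preserves the
counterclockwise cyclic order. -/
def OrientationPreserving (f : Circle ≃ₜ Circle) : Prop :=
  ∀ a b c : Circle, Ccw a b c → Ccw (f a) (f b) (f c)

/-- The pair `{a, b}` separates `c` from `d` on the circle. -/
def Linked (a b c d : Circle) : Prop :=
  (Ccw a b c ∧ Ccw b a d) ∨ (Ccw b a c ∧ Ccw a b d)

/-- A lamination of the circle: a nonempty set of unordered pairs of distinct points (coded as a
symmetric set of ordered pairs), closed in the space of pairs of distinct points, no two of whose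
members are linked. -/
structure IsLamination (Λ : Set (Circle × Circle)) : Prop where
  nonempty : Λ.Nonempty
  symm : ∀ a b, (a, b) ∈ Λ → (b, a) ∈ Λ
  ne : ∀ a b, (a, b) ∈ Λ → a ≠ b
  closed : ∀ a b, a ≠ b → (a, b) ∈ closure Λ → (a, b) ∈ Λ
  unlinked : ∀ a b c d, (a, b) ∈ Λ → (c, d) ∈ Λ → ¬ Linked a b c d

/-- The open unit disc minus the union of the geodesics joining the endpoints of the leaves.
We use the projective (Klein) model of the hyperbolic plane, where the geodesic joining two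
points of the circle is the open chord. -/
def complementary (Λ : Set (Circle × Circle)) : Set ℂ :=
  Metric.ball (0 : ℂ) 1 \ ⋃ l ∈ Λ, openSegment ℝ (l.1 : ℂ) (l.2 : ℂ)

/-- Every gap, that is the closure of a connected component of the complement of the leaves in
the disc, is the convex hull of finitely many (at least three) points of the circle. -/
def VeryFull (Λ : Set (Circle × Circle)) : Prop :=
  ∀ z ∈ complementary Λ, ∃ V : Finset Circle, 3 ≤ V.card ∧
    closure (connectedComponentIn (complementary Λ) z) =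
      convexHull ℝ ((fun a : Circle => (a : ℂ)) '' (V : Set Circle))

/-! ### Plane geometry -/

lemma area_rot (a b c : ℂ) : area b c a = area a b c := by unfold area; ring

lemma area_swap (a b c : ℂ) : area b a c = - area a b c := by unfold area; ring

lemma area_combo (a b w z : ℂ) (s t : ℝ) (h : s + t = 1) :
    area a b (s • w + t • z) = s * area a b w + t * area a b z := by
  have hs : s = 1 - t := by linarith
  subst hs
  simp only [area, Complex.add_re, Complex.add_im, Complex.real_smul, Complex.mul_re,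
    Complex.mul_im, Complex.ofReal_re, Complex.ofReal_im]
  ring

lemma continuous_area (a b : ℂ) : Continuous (fun w => area a b w) := by
  unfold area; fun_prop

/-- closed triangle -/
def triC (a b c : ℂ) : Set ℂ := {w | 0 ≤ area a b w ∧ 0 ≤ area b c w ∧ 0 ≤ area c a w}
/-- open triangle -/
def triO (a b c : ℂ) : Set ℂ := {w | 0 < area a b w ∧ 0 < area b c w ∧ 0 < area c a w}

lemma triO_sub_triC (a b c : ℂ) : triO a b c ⊆ triC a b c :=
  fun _ h => ⟨h.1.le, h.2.1.le, h.2.2.le⟩

lemma convex_triC (a b c : ℂ) : Convex ℝ (triC a b c) := by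
  intro w hw z hz s t hs ht hst
  obtain ⟨h1, h2, h3⟩ := hw
  obtain ⟨k1, k2, k3⟩ := hz
  refine ⟨?_, ?_, ?_⟩ <;> rw [area_combo _ _ _ _ _ _ hst] <;> positivity

lemma convex_triO (a b c : ℂ) : Convex ℝ (triO a b c) := by
  intro w hw z hz s t hs ht hst
  obtain ⟨h1, h2, h3⟩ := hw
  obtain ⟨k1, k2, k3⟩ := hz
  have key : ∀ x y : ℝ, 0 < x → 0 < y → 0 < s * x + t * y := by
    intro x y hx hy
    rcases hs.eq_or_lt with h | h
    · have : t = 1 := by linarith
      subst this; rw [← h]; simpa using hy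
    · have := mul_pos h hx
      have := mul_nonneg ht hy.le
      linarith
  refine ⟨?_, ?_, ?_⟩ <;> rw [area_combo _ _ _ _ _ _ hst]
  · exact key _ _ h1 k1
  · exact key _ _ h2 k2
  · exact key _ _ h3 k3

lemma isOpen_triO (a b c : ℂ) : IsOpen (triO a b c) := by
  have h1 := isOpen_lt (continuous_const (y := (0:ℝ))) (continuous_area a b)
  have h2 := isOpen_lt (continuous_const (y := (0:ℝ))) (continuous_area b c)
  have h3 := isOpen_lt (continuous_const (y := (0:ℝ))) (continuous_area c a)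
  exact h1.inter (h2.inter h3)

lemma isClosed_triC (a b c : ℂ) : IsClosed (triC a b c) := by
  have h1 := isClosed_le (continuous_const (y := (0:ℝ))) (continuous_area a b)
  have h2 := isClosed_le (continuous_const (y := (0:ℝ))) (continuous_area b c)
  have h3 := isClosed_le (continuous_const (y := (0:ℝ))) (continuous_area c a)
  exact h1.inter (h2.inter h3)

lemma area_self_left (a b : ℂ) : area a b a = 0 := by unfold area; ring
lemma area_self_right (a b : ℂ) : area a b b = 0 := by unfold area; ring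

lemma bary (a b c w : ℂ) (h : 0 < area a b c) :
    w = (area b c w / area a b c) • a + (area c a w / area a b c) • b +
      (area a b w / area a b c) • c := by
  have h' : area a b c ≠ 0 := h.ne'
  apply Complex.ext
  · simp only [Complex.add_re, Complex.real_smul, Complex.mul_re, Complex.ofReal_re,
      Complex.ofReal_im]
    field_simp
    unfold area; ring
  · simp only [Complex.add_im, Complex.real_smul, Complex.mul_im, Complex.ofReal_re,
      Complex.ofReal_im]
    field_simp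
    unfold area; ring

lemma bary_sum (a b c w : ℂ) : area b c w + area c a w + area a b w = area a b c := by
  unfold area; ring

lemma hull_eq_triC (a b c : ℂ) (h : 0 < area a b c) :
    convexHull ℝ ({a, b, c} : Set ℂ) = triC a b c := by
  apply Subset.antisymm
  · apply convexHull_min _ (convex_triC a b c)
    have e1 := area_rot a b c
    have e2 := area_rot b c a
    rintro x (rfl | rfl | rfl)
    · exact ⟨by rw [area_self_left], by rw [e1]; exact h.le, by rw [area_self_right]⟩
    · exact ⟨by rw [area_self_right], by rw [area_self_left], by rw [e2, e1]; exact h.le⟩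
    · exact ⟨h.le, by rw [area_self_right], by rw [area_self_left]⟩
  · intro w hw
    obtain ⟨h1, h2, h3⟩ := hw
    have hb := bary a b c w h
    have hs := bary_sum a b c w
    have := (convex_convexHull ℝ ({a, b, c} : Set ℂ)).sum_mem (t := Finset.univ)
      (w := ![area b c w / area a b c, area c a w / area a b c, area a b w / area a b c])
      (z := ![a, b, c])
      (by
        intro i _
        fin_cases i <;> simp <;> positivity)
      (by
        simp [Fin.sum_univ_three]
        field_simp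
        linarith)
      (by
        intro i _
        apply subset_convexHull
        fin_cases i <;> simp)
    rw [hb]
    simpa [Fin.sum_univ_three] using this

lemma closure_triO (a b c : ℂ) (z : ℂ) (hz : z ∈ triO a b c) :
    closure (triO a b c) = triC a b c := by
  apply Subset.antisymm
  · exact closure_minimal (triO_sub_triC a b c) (isClosed_triC a b c)
  · intro w hw
    have hcont : Filter.Tendsto (fun s : ℝ => (1 - s) • w + s • z) (𝓝[>] 0) (𝓝 w) := by
      have : Continuous (fun s : ℝ => (1 - s) • w + s • z) := by fun_prop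
      have h2 := this.tendsto 0
      simp only [sub_zero, one_smul, zero_smul, add_zero] at h2
      exact h2.mono_left nhdsWithin_le_nhds
    apply mem_closure_of_tendsto hcont
    have h01 : ∀ᶠ s : ℝ in 𝓝[>] 0, s < 1 := by
      have : Set.Iio (1:ℝ) ∈ 𝓝 (0:ℝ) := Iio_mem_nhds one_pos
      exact mem_nhdsWithin_of_mem_nhds this
    filter_upwards [h01, self_mem_nhdsWithin] with s hs1 hs0
    have hs0' : (0:ℝ) < s := hs0
    obtain ⟨h1, h2, h3⟩ := hw
    obtain ⟨k1, k2, k3⟩ := hz
    have hs' : 0 ≤ 1 - s := by linarith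
    refine ⟨?_, ?_, ?_⟩ <;> rw [area_combo _ _ _ _ _ _ (by ring)] <;> positivity

/-- unit circle relation -/
lemma circle_sq (a : Circle) : (a : ℂ).re ^ 2 + (a : ℂ).im ^ 2 = 1 := by
  have := Circle.normSq_coe a
  rw [Complex.normSq_apply] at this
  nlinarith

lemma circle_ext {a b : Circle} (h1 : (a : ℂ).re = (b : ℂ).re) (h2 : (a : ℂ).im = (b : ℂ).im) :
    a = b := Circle.ext (Complex.ext h1 h2)

lemma eq_of_area_zero (a b c : Circle) (hab : a ≠ b) (h : area a b c = 0) : c = a ∨ c = b := by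
  have ha := circle_sq a
  have hb := circle_sq b
  have hc := circle_sq c
  have hN : 0 < ((b:ℂ).re - (a:ℂ).re) ^ 2 + ((b:ℂ).im - (a:ℂ).im) ^ 2 := by
    by_contra hcon
    have h1 : ((b:ℂ).re - (a:ℂ).re) ^ 2 = 0 := by nlinarith [sq_nonneg ((b:ℂ).re - (a:ℂ).re), sq_nonneg ((b:ℂ).im - (a:ℂ).im)]
    have h2 : ((b:ℂ).im - (a:ℂ).im) ^ 2 = 0 := by nlinarith [sq_nonneg ((b:ℂ).re - (a:ℂ).re), sq_nonneg ((b:ℂ).im - (a:ℂ).im)]
    apply hab
    apply circle_ext
    · have := pow_eq_zero_iff (two_ne_zero) |>.1 h1; linarith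
    · have := pow_eq_zero_iff (two_ne_zero) |>.1 h2; linarith
  set x1 := (a:ℂ).re
  set y1 := (a:ℂ).im
  set x2 := (b:ℂ).re
  set y2 := (b:ℂ).im
  set x3 := (c:ℂ).re
  set y3 := (c:ℂ).im
  set N := (x2 - x1) ^ 2 + (y2 - y1) ^ 2 with hNdef
  set s := ((x3 - x1) * (x2 - x1) + (y3 - y1) * (y2 - y1)) / N with hs
  have harea : (x2 - x1) * (y3 - y1) - (y2 - y1) * (x3 - x1) = 0 := h
  have hx : x3 = x1 + s * (x2 - x1) := by
    rw [hs]
    field_simp
    rw [hNdef]
    linear_combination (-(y2 - y1)) * harea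
  have hy : y3 = y1 + s * (y2 - y1) := by
    rw [hs]
    field_simp
    rw [hNdef]
    linear_combination ((x2 - x1)) * harea
  have hkey : (s ^ 2 - s) * N = 0 := by
    have e1 : 2 * (x1 * (x2 - x1) + y1 * (y2 - y1)) + N = 0 := by rw [hNdef]; nlinarith
    have e2 : x3 ^ 2 + y3 ^ 2 = x1 ^ 2 + y1 ^ 2 + s * (2 * (x1 * (x2 - x1) + y1 * (y2 - y1))) + s ^ 2 * N := by
      rw [hx, hy, hNdef]; ring
    have e3 : 2 * (x1 * (x2 - x1) + y1 * (y2 - y1)) = - N := by linarith
    rw [e3, hc, ha] at e2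
    linarith
  have hss : s ^ 2 - s = 0 := by
    rcases mul_eq_zero.1 hkey with h | h
    · exact h
    · exact absurd h hN.ne'
  have : s * (s - 1) = 0 := by linarith
  rcases mul_eq_zero.1 this with h0 | h1
  · left
    apply circle_ext
    · change x3 = x1; rw [hx, h0]; ring
    · change y3 = y1; rw [hy, h0]; ring
  · right
    have hs1 : s = 1 := by linarith
    apply circle_ext
    · change x3 = x2; rw [hx, hs1]; ring
    · change y3 = y2; rw [hy, hs1]; ring

lemma triC_sub_closedBall (a b c : Circle) (h : 0 < area a b c) :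
    triC a b c ⊆ Metric.closedBall (0:ℂ) 1 := by
  rw [← hull_eq_triC _ _ _ h]
  apply convexHull_min _ (convex_closedBall _ _)
  rintro x (rfl | rfl | rfl) <;> simp [Circle.norm_coe]

lemma triO_sub_ball (a b c : Circle) (h : 0 < area a b c) :
    triO a b c ⊆ Metric.ball (0:ℂ) 1 := by
  have h1 : triO a b c ⊆ Metric.closedBall (0:ℂ) 1 :=
    (triO_sub_triC _ _ _).trans (triC_sub_closedBall a b c h)
  have h2 := interior_mono h1
  rwa [(isOpen_triO _ _ _).interior_eq, interior_closedBall _ one_ne_zero] at h2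

lemma not_mem_ball (a : Circle) : (a : ℂ) ∉ Metric.ball (0:ℂ) 1 := by
  simp [Circle.norm_coe]

/-- a point of a closed triangle on the line of a side is on the side -/
lemma mem_side (a b c w : ℂ) (h : 0 < area a b c) (hw : w ∈ triC a b c) (h0 : area a b w = 0) :
    w ∈ segment ℝ a b := by
  obtain ⟨h1, h2, h3⟩ := hw
  have hb := bary a b c w h
  have hs := bary_sum a b c w
  refine ⟨area b c w / area a b c, area c a w / area a b c, by positivity, by positivity, ?_, ?_⟩
  · field_simp; linarith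
  · rw [h0] at hb; simp only [zero_div, zero_smul, add_zero] at hb; exact hb.symm

lemma mem_openSegment_of_ball (a b : Circle) (w : ℂ) (hw : w ∈ segment ℝ (a:ℂ) b)
    (hb : w ∈ Metric.ball (0:ℂ) 1) : w ∈ openSegment ℝ (a:ℂ) b := by
  refine mem_openSegment_of_ne_left_right (𝕜 := ℝ) (x := (a:ℂ)) (y := (b:ℂ)) (z := w) ?_ ?_ hw
  · rintro rfl; exact not_mem_ball _ hb
  · rintro rfl; exact not_mem_ball _ hb

lemma ccw_rot {a b c : Circle} (h : Ccw a b c) : Ccw b c a := by
  unfold Ccw at *; rw [area_rot]; exact h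

lemma Ccw.ne {a b c : Circle} (h : Ccw a b c) : a ≠ b := by
  rintro rfl
  have : area (a:ℂ) a c = 0 := by unfold area; ring
  unfold Ccw at h; linarith

theorem triangle_gap (Λ : Set (Circle × Circle)) (hΛ : IsLamination Λ) (a b c : Circle)
    (h : Ccw a b c) (hab : (a, b) ∈ Λ) (hbc : (b, c) ∈ Λ) (hca : (c, a) ∈ Λ) (z : ℂ)
    (hz : z ∈ triO a b c) :
    ∃ V : Finset Circle, 3 ≤ V.card ∧
    closure (connectedComponentIn (complementary Λ) z) =
      convexHull ℝ ((fun a : Circle => (a : ℂ)) '' (V : Set Circle)) := by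
  classical
  have hball := triO_sub_ball a b c h
  -- the open triangle misses the leaves
  have hsub : triO (a:ℂ) b c ⊆ complementary Λ := by
    intro w hw
    refine ⟨hball hw, ?_⟩
    simp only [mem_iUnion, not_exists]
    rintro ⟨p, q⟩ hpq hwpq
    simp only at hwpq
    obtain ⟨s, t, hs, ht, hst, hwst⟩ := hwpq
    have key : ∀ x y : Circle, (x, y) ∈ Λ → 0 < area x y w →
        0 ≤ area x y p ∧ 0 ≤ area x y q ∧ (0 < area x y p ∨ 0 < area x y q) := by
      intro x y hxy hxyw
      have hun := hΛ.unlinked x y p q hxy hpq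
      unfold Linked Ccw at hun
      rw [← hwst, area_combo _ _ _ _ _ _ hst] at hxyw
      rw [area_swap (x:ℂ) y q, area_swap (x:ℂ) y p] at hun
      push Not at hun
      obtain ⟨u1, u2⟩ := hun
      by_cases hp : 0 < area x y p
      · exact ⟨hp.le, by linarith [u1 hp], Or.inl hp⟩
      · push Not at hp
        have hq : 0 < area x y q := by
          by_contra hq
          push Not at hq
          nlinarith
        refine ⟨?_, hq.le, Or.inr hq⟩
        by_contra hneg
        push Not at hneg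
        linarith [u2 (by linarith)]
    obtain ⟨w1, w2, w3⟩ := hw
    obtain ⟨p1, q1, o1⟩ := key a b hab w1
    obtain ⟨p2, q2, o2⟩ := key b c hbc w2
    obtain ⟨p3, q3, o3⟩ := key c a hca w3
    have vert : ∀ x : Circle, 0 ≤ area a b x → 0 ≤ area b c x → 0 ≤ area c a x →
        x = a ∨ x = b ∨ x = c := by
      intro x x1 x2 x3
      rcases x1.eq_or_lt with e1 | l1
      · rcases eq_of_area_zero a b x h.ne e1.symm with e | e <;> tauto
      rcases x2.eq_or_lt with e2 | l2
      · rcases eq_of_area_zero b c x (ccw_rot h).ne e2.symm with e | e <;> tauto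
      rcases x3.eq_or_lt with e3 | l3
      · rcases eq_of_area_zero c a x (ccw_rot (ccw_rot h)).ne e3.symm with e | e <;> tauto
      exact absurd (hball ⟨l1, l2, l3⟩) (not_mem_ball x)
    rcases vert p p1 p2 p3 with e | e | e <;> rcases vert q q1 q2 q3 with e' | e' | e' <;>
      subst e <;> subst e' <;>
      simp only [area_self_left, area_self_right, lt_irrefl, or_self, or_false, false_or] at o1 o2 o3
  have hzc : z ∈ complementary Λ := hsub hz
  have hclos := closure_triO a b c z hz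
  have hcomp : connectedComponentIn (complementary Λ) z = triO (a:ℂ) b c := by
    apply Subset.antisymm
    · apply (isPreconnected_connectedComponentIn).subset_of_closure_inter_subset
        (isOpen_triO _ _ _)
      · exact ⟨z, mem_connectedComponentIn hzc, hz⟩
      · rintro w ⟨hw, hw2⟩
        rw [hclos] at hw
        have hwc := connectedComponentIn_subset _ _ hw2
        have aux : ∀ x y y' : Circle, (x, y) ∈ Λ → 0 < area x y y' → w ∈ triC x y y' →
            0 < area x y w := by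
          intro x y y' hxy hpos hwt
          rcases (hwt.1).eq_or_lt with e | l
          · exfalso
            have hseg := mem_side _ _ _ _ hpos hwt e.symm
            have hos := mem_openSegment_of_ball x y w hseg hwc.1
            apply hwc.2
            simp only [mem_iUnion]
            exact ⟨(x, y), hxy, hos⟩
          · exact l
        refine ⟨aux a b c hab h hw, aux b c a hbc (ccw_rot h) ⟨hw.2.1, hw.2.2, hw.1⟩,
          aux c a b hca (ccw_rot (ccw_rot h)) ⟨hw.2.2, hw.1, hw.2.1⟩⟩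
    · exact (convex_triO _ _ _).isPreconnected.subset_connectedComponentIn hz hsub
  refine ⟨{a, b, c}, ?_, ?_⟩
  · rw [Finset.card_eq_three.2 ⟨a, b, c, h.ne, (ccw_rot (ccw_rot h)).ne.symm, (ccw_rot h).ne, rfl⟩]
  · rw [hcomp, hclos, ← hull_eq_triC _ _ _ h]
    congr 1
    ext x
    simp [eq_comm]

/-! ### The circle as the one-point compactification of the line -/

lemma circle_isEmbedding : IsEmbedding (fun z : Circle => (z : ℂ)) :=
  Topology.IsEmbedding.subtypeVal

lemma P_ne (x : ℝ) : (x : ℂ) + Complex.I ≠ 0 := by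
  intro h
  have := congrArg Complex.im h
  simp at this

/-- rational parametrisation of the circle minus the point `1` -/
noncomputable def P (x : ℝ) : Circle := Circle.ofConjDivSelf ((x : ℂ) + Complex.I) (P_ne x)

lemma P_coe (x : ℝ) : (P x : ℂ) = ((x:ℂ) - Complex.I) / ((x:ℂ) + Complex.I) := by
  simp [P, Circle.ofConjDivSelf, sub_eq_add_neg]

lemma P_coe' (x : ℝ) : (P x : ℂ) =
    ⟨(x ^ 2 - 1) / (x ^ 2 + 1), - (2 * x) / (x ^ 2 + 1)⟩ := by
  rw [P_coe, div_eq_iff (P_ne x)]
  have h : x ^ 2 + 1 ≠ 0 := by positivity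
  apply Complex.ext
  · simp
    field_simp
    ring
  · simp
    field_simp
    ring

lemma P_re (x : ℝ) : (P x : ℂ).re = (x ^ 2 - 1) / (x ^ 2 + 1) := by rw [P_coe']
lemma P_im (x : ℝ) : (P x : ℂ).im = - (2 * x) / (x ^ 2 + 1) := by rw [P_coe']

lemma one_sub_P_re (x : ℝ) : 1 - (P x : ℂ).re = 2 / (x ^ 2 + 1) := by
  rw [P_re]
  have h : x ^ 2 + 1 ≠ 0 := by positivity
  field_simp
  ring

lemma P_ne_one (x : ℝ) : P x ≠ 1 := by
  intro h
  have h1 := one_sub_P_re x
  rw [h] at h1
  have : (0:ℝ) < 2 / (x ^ 2 + 1) := by positivity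
  simp at h1
  linarith

lemma P_param (x : ℝ) : x = - (P x : ℂ).im / (1 - (P x : ℂ).re) := by
  rw [one_sub_P_re, P_im]
  have h : x ^ 2 + 1 ≠ 0 := by positivity
  field_simp

lemma P_injective : Function.Injective P := by
  intro x y h
  rw [P_param x, P_param y, h]

lemma re_lt_one (z : Circle) (h : z ≠ 1) : (z:ℂ).re < 1 := by
  have hz := circle_sq z
  by_contra hcon
  push Not at hcon
  have h1 : (z:ℂ).re = 1 := by nlinarith [sq_nonneg (z:ℂ).im]
  have h2 : (z:ℂ).im = 0 := by
    have : (z:ℂ).im ^ 2 = 0 := by rw [h1] at hz; linarith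
    exact pow_eq_zero_iff (two_ne_zero) |>.1 this
  apply h
  apply circle_ext
  · simpa using h1
  · simpa using h2

lemma P_surj (z : Circle) (h : z ≠ 1) : ∃ x, P x = z := by
  have hz := circle_sq z
  have hlt := re_lt_one z h
  have hne : 1 - (z:ℂ).re ≠ 0 := by linarith
  have hsq : ((z:ℂ).im) ^ 2 = (1 - (z:ℂ).re) * (1 + (z:ℂ).re) := by linarith
  refine ⟨-(z:ℂ).im / (1 - (z:ℂ).re), ?_⟩
  have e : (-(z:ℂ).im / (1 - (z:ℂ).re)) ^ 2 = (1 + (z:ℂ).re) / (1 - (z:ℂ).re) := by
    rw [div_pow, neg_sq, hsq]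
    field_simp
  apply circle_ext
  · rw [P_re, e]; field_simp; ring
  · rw [P_im, e]; field_simp; ring

lemma continuous_P : Continuous P := by
  have : Continuous (fun x : ℝ => (P x : ℂ)) := by
    simp_rw [P_coe]
    exact (by fun_prop : Continuous fun x : ℝ => ((x:ℂ) - Complex.I)).div
      (by fun_prop) (fun x => P_ne x)
  exact circle_isEmbedding.continuous_iff.2 this

lemma P_tendsto : Filter.Tendsto P (Filter.coclosedCompact ℝ) (𝓝 1) := by
  rw [circle_isEmbedding.tendsto_nhds_iff]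
  have h1 : Filter.Tendsto (fun x : ℝ => (1 : ℂ) - (2 * Complex.I) / ((x:ℂ) + Complex.I))
      (Filter.coclosedCompact ℝ) (𝓝 (1 - 0)) := by
    apply Filter.Tendsto.sub tendsto_const_nhds
    rw [tendsto_zero_iff_norm_tendsto_zero]
    simp only [norm_div]
    apply Filter.Tendsto.div_atTop (a := ‖2 * Complex.I‖) tendsto_const_nhds
    have h2 : Filter.Tendsto (fun x : ℝ => ‖x‖ - 1) (Filter.coclosedCompact ℝ) Filter.atTop := by
      rw [Filter.coclosedCompact_eq_cocompact]
      exact Filter.tendsto_atTop_add_const_right _ _ tendsto_norm_cocompact_atTop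
    apply Filter.tendsto_atTop_mono _ h2
    intro x
    have := norm_sub_norm_le (x:ℂ) (-Complex.I)
    simp at this
    simpa using this
  simp only [sub_zero] at h1
  refine h1.congr ?_
  intro x
  simp only [Function.comp]
  rw [P_coe]
  have := P_ne x
  field_simp
  ring

open OnePoint in
/-- the identification of the one-point compactification of the line with the circle -/
noncomputable def ThetaFun (o : OnePoint ℝ) : Circle := o.elim 1 P

lemma ThetaFun_infty : ThetaFun (OnePoint.infty) = 1 := rfl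
lemma ThetaFun_coe (x : ℝ) : ThetaFun (x : OnePoint ℝ) = P x := rfl

lemma ThetaFun_bij : Function.Bijective ThetaFun := by
  constructor
  · intro a b h
    induction a using OnePoint.rec with
    | infty =>
      induction b using OnePoint.rec with
      | infty => rfl
      | coe y => rw [ThetaFun_infty, ThetaFun_coe] at h; exact absurd h.symm (P_ne_one y)
    | coe x =>
      induction b using OnePoint.rec with
      | infty => rw [ThetaFun_infty, ThetaFun_coe] at h; exact absurd h (P_ne_one x)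
      | coe y => rw [ThetaFun_coe, ThetaFun_coe] at h; rw [P_injective h]
  · intro z
    by_cases hz : z = 1
    · exact ⟨OnePoint.infty, by rw [ThetaFun_infty, hz]⟩
    · obtain ⟨x, hx⟩ := P_surj z hz
      exact ⟨x, hx⟩

lemma continuous_ThetaFun : Continuous ThetaFun := by
  rw [OnePoint.continuous_iff]
  exact ⟨P_tendsto, continuous_P⟩

noncomputable def Theta : OnePoint ℝ ≃ₜ Circle :=
  Continuous.homeoOfEquivCompactToT2 (f := Equiv.ofBijective ThetaFun ThetaFun_bij)
    continuous_ThetaFun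

lemma Theta_infty : Theta (OnePoint.infty) = 1 := rfl
lemma Theta_coe (x : ℝ) : Theta (x : OnePoint ℝ) = P x := rfl

/-- the homeomorphism of the circle induced by an increasing bijection of the line -/
noncomputable def Hm (f : ℝ ≃o ℝ) : Circle ≃ₜ Circle :=
  (Theta.symm.trans (f.toHomeomorph.onePointCongr)).trans Theta

lemma Hm_P (f : ℝ ≃o ℝ) (x : ℝ) : Hm f (P x) = P (f x) := by
  have : Theta.symm (P x) = (x : OnePoint ℝ) := by
    rw [← Theta_coe]; simp
  simp only [Hm, Homeomorph.trans_apply, this]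
  rfl

lemma Hm_one (f : ℝ ≃o ℝ) : Hm f 1 = 1 := by
  have : Theta.symm 1 = (OnePoint.infty : OnePoint ℝ) := by
    rw [← Theta_infty]; simp
  simp only [Hm, Homeomorph.trans_apply, this]
  rfl

lemma circle_cases (z : Circle) : z = 1 ∨ ∃ x, P x = z := by
  by_cases h : z = 1
  · exact Or.inl h
  · exact Or.inr (P_surj z h)

/-! ### areas in coordinates -/

/-- the equation of the chord joining `P p` and `P q` -/
def ell (p q : ℝ) (z : ℂ) : ℝ := (1 + z.re) + (p + q) * z.im + p * q * (1 - z.re)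

lemma area_PP (p q : ℝ) (z : ℂ) :
    area (P p) (P q) z = 2 * (q - p) / ((p ^ 2 + 1) * (q ^ 2 + 1)) * ell p q z := by
  have h1 : p ^ 2 + 1 ≠ 0 := by positivity
  have h2 : q ^ 2 + 1 ≠ 0 := by positivity
  unfold area ell
  rw [P_re, P_re, P_im, P_im]
  field_simp
  ring

lemma area_oneP (c : ℝ) (z : ℂ) :
    area (1 : Circle) (P c) z = 2 / (c ^ 2 + 1) * (- z.im - c * (1 - z.re)) := by
  have h1 : c ^ 2 + 1 ≠ 0 := by positivity
  unfold area
  rw [P_re, P_im]
  simp only [Circle.coe_one, Complex.one_re, Complex.one_im]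
  field_simp
  ring

lemma ell_P (p q x : ℝ) : ell p q (P x) = 2 / (x ^ 2 + 1) * ((x - p) * (x - q)) := by
  have h1 : x ^ 2 + 1 ≠ 0 := by positivity
  unfold ell
  rw [P_re, P_im]
  field_simp
  ring

lemma area_PPP (p q x : ℝ) : area (P p) (P q) (P x) =
    4 / ((p ^ 2 + 1) * (q ^ 2 + 1) * (x ^ 2 + 1)) * ((q - p) * ((x - p) * (x - q))) := by
  rw [area_PP, ell_P]
  have h1 : p ^ 2 + 1 ≠ 0 := by positivity
  have h2 : q ^ 2 + 1 ≠ 0 := by positivity
  have h3 : x ^ 2 + 1 ≠ 0 := by positivity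
  field_simp
  ring

lemma area_onePP (c x : ℝ) : area (1 : Circle) (P c) (P x) =
    4 / ((c ^ 2 + 1) * (x ^ 2 + 1)) * (x - c) := by
  rw [area_oneP, one_sub_P_re, P_im]
  have h1 : c ^ 2 + 1 ≠ 0 := by positivity
  have h3 : x ^ 2 + 1 ≠ 0 := by positivity
  field_simp
  ring

lemma ccw_PPP (p q x : ℝ) : Ccw (P p) (P q) (P x) ↔ 0 < (q - p) * ((x - p) * (x - q)) := by
  unfold Ccw
  rw [area_PPP]
  have : 0 < 4 / ((p ^ 2 + 1) * (q ^ 2 + 1) * (x ^ 2 + 1)) := by positivity
  exact mul_pos_iff_of_pos_left this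

lemma ccw_onePP (c x : ℝ) : Ccw 1 (P c) (P x) ↔ c < x := by
  unfold Ccw
  rw [area_onePP]
  have : 0 < 4 / ((c ^ 2 + 1) * (x ^ 2 + 1)) := by positivity
  rw [mul_pos_iff_of_pos_left this, sub_pos]

lemma ccw_rot_iff (a b c : Circle) : Ccw b c a ↔ Ccw a b c :=
  ⟨fun h => ccw_rot (ccw_rot h), ccw_rot⟩

lemma ccw_PoneP (p x : ℝ) : Ccw (P p) 1 (P x) ↔ x < p := by
  rw [← ccw_rot_iff, ccw_onePP]

lemma ccw_PPone (p x : ℝ) : Ccw (P p) (P x) 1 ↔ p < x := by
  rw [← ccw_rot_iff, ← ccw_rot_iff, ccw_rot_iff, ccw_rot_iff, ccw_rot_iff, ccw_onePP]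

lemma not_ccw_left (a b : Circle) : ¬ Ccw a b a := by
  unfold Ccw; rw [area_self_left]; exact lt_irrefl _
lemma not_ccw_right (a b : Circle) : ¬ Ccw a b b := by
  unfold Ccw; rw [area_self_right]; exact lt_irrefl _
lemma not_ccw_same (a b : Circle) : ¬ Ccw a a b := fun h => h.ne rfl

lemma Hm_orientation (f : ℝ ≃o ℝ) : OrientationPreserving (Hm f) := by
  intro a b c h
  have hf : ∀ x y : ℝ, x < y ↔ f x < f y := fun x y => f.lt_iff_lt.symm
  rcases circle_cases a with rfl | ⟨x, rfl⟩ <;> rcases circle_cases b with rfl | ⟨y, rfl⟩ <;>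
    rcases circle_cases c with rfl | ⟨z, rfl⟩ <;>
    simp only [Hm_P, Hm_one] <;>
    first
    | exact absurd h (not_ccw_left _ _)
    | exact absurd h (not_ccw_right _ _)
    | exact absurd h (not_ccw_same _ _)
    | skip
  · rw [ccw_onePP] at h ⊢; exact (hf _ _).1 h
  · rw [ccw_PoneP] at h ⊢; exact (hf _ _).1 h
  · rw [ccw_PPone] at h ⊢; exact (hf _ _).1 h
  · rw [ccw_PPP] at h ⊢
    have hmono := f.strictMono
    have key : ∀ u v : ℝ, (0 < u - v → 0 < f u - f v) ∧ (u - v < 0 → f u - f v < 0) := by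
      intro u v
      constructor
      · intro h; have := hmono (sub_pos.1 h); linarith
      · intro h; have := hmono (sub_neg.1 h); linarith
    rcases lt_trichotomy (y - x) 0 with h1 | h1 | h1
    · rcases lt_trichotomy (z - x) 0 with h2 | h2 | h2
      · rcases lt_trichotomy (z - y) 0 with h3 | h3 | h3
        · nlinarith [mul_pos_of_neg_of_neg h2 h3]
        · rw [h3] at h; simp at h
        · exact mul_pos_of_neg_of_neg ((key _ _).2 h1) (mul_neg_of_neg_of_pos ((key _ _).2 h2) ((key _ _).1 h3))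
      · rw [h2] at h; simp at h
      · rcases lt_trichotomy (z - y) 0 with h3 | h3 | h3
        · linarith
        · rw [h3] at h; simp at h
        · nlinarith [mul_pos h2 h3]
    · rw [h1] at h; simp at h
    · rcases lt_trichotomy (z - x) 0 with h2 | h2 | h2
      · rcases lt_trichotomy (z - y) 0 with h3 | h3 | h3
        · exact mul_pos ((key _ _).1 h1) (mul_pos_of_neg_of_neg ((key _ _).2 h2) ((key _ _).2 h3))
        · rw [h3] at h; simp at h
        · linarith
      · rw [h2] at h; simp at h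
      · rcases lt_trichotomy (z - y) 0 with h3 | h3 | h3
        · nlinarith [mul_neg_of_pos_of_neg h2 h3]
        · rw [h3] at h; simp at h
        · exact mul_pos ((key _ _).1 h1) (mul_pos ((key _ _).1 h2) ((key _ _).1 h3))

/-! ### The lamination attached to a closed subset of the line -/

def IsGap (C : Set ℝ) (u v : ℝ) : Prop :=
  u ∈ C ∧ v ∈ C ∧ u < v ∧ ∀ x, u < x → x < v → x ∉ C

noncomputable def lft (u v : ℝ) (k m : ℕ) : ℝ := u + (v - u) * ((m : ℝ) / 2 ^ k)

def Dy (C : Set ℝ) (p q : ℝ) : Prop :=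
  ∃ u v, IsGap C u v ∧ ∃ k m : ℕ, m < 2 ^ k ∧ p = lft u v k m ∧ q = lft u v k (m + 1)

def Lam0 (C : Set ℝ) : Set (Circle × Circle) :=
  {l | (∃ c ∈ C, l = (1, P c)) ∨ ∃ p q, Dy C p q ∧ l = (P p, P q)}

def Lam (C : Set ℝ) : Set (Circle × Circle) := {l | l ∈ Lam0 C ∨ l.swap ∈ Lam0 C}

lemma gap_exists {C : Set ℝ} (hC : IsClosed C) (hb : ∀ x, ∃ c ∈ C, c < x)
    (ha : ∀ x, ∃ c ∈ C, x < c) (y : ℝ) (hy : y ∉ C) : ∃ u v, IsGap C u v ∧ u < y ∧ y < v := by
  obtain ⟨c1, hc1, h1⟩ := hb y
  obtain ⟨c2, hc2, h2⟩ := ha y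
  have hne1 : (C ∩ Iic y).Nonempty := ⟨c1, hc1, h1.le⟩
  have hne2 : (C ∩ Ici y).Nonempty := ⟨c2, hc2, h2.le⟩
  have hbd1 : BddAbove (C ∩ Iic y) := ⟨y, fun x hx => hx.2⟩
  have hbd2 : BddBelow (C ∩ Ici y) := ⟨y, fun x hx => hx.2⟩
  have m1 := (hC.inter isClosed_Iic).csSup_mem hne1 hbd1
  have m2 := (hC.inter isClosed_Ici).csInf_mem hne2 hbd2
  have n1 : sSup (C ∩ Iic y) < y := lt_of_le_of_ne m1.2 (fun h => hy (h ▸ m1.1))
  have n2 : y < sInf (C ∩ Ici y) := lt_of_le_of_ne m2.2 (fun h => hy (h ▸ m2.1))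
  refine ⟨_, _, ⟨m1.1, m2.1, n1.trans n2, ?_⟩, n1, n2⟩
  intro x hx1 hx2 hxC
  rcases le_total x y with h | h
  · exact absurd (le_csSup hbd1 ⟨hxC, h⟩) (not_le.2 hx1)
  · exact absurd (csInf_le hbd2 ⟨hxC, h⟩) (not_le.2 hx2)

lemma gap_cmp {C : Set ℝ} {u v u' v' : ℝ} (h : IsGap C u v) (h' : IsGap C u' v') :
    (u = u' ∧ v = v') ∨ v ≤ u' ∨ v' ≤ u := by
  obtain ⟨hu, hv, huv, hg⟩ := h
  obtain ⟨hu', hv', huv', hg'⟩ := h'
  by_cases c1 : v ≤ u'
  · exact Or.inr (Or.inl c1)
  by_cases c2 : v' ≤ u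
  · exact Or.inr (Or.inr c2)
  push Not at c1 c2
  left
  have e1 : u ≤ u' := by
    by_contra hc; push Not at hc; exact hg' u hc c2 hu
  have e2 : u' ≤ u := by
    by_contra hc; push Not at hc; exact hg u' hc c1 hu'
  have e3 : v ≤ v' := by
    by_contra hc; push Not at hc; exact hg v' c2 hc hv'
  have e4 : v' ≤ v := by
    by_contra hc; push Not at hc; exact hg' v c1 hc hv
  exact ⟨le_antisymm e1 e2, le_antisymm e3 e4⟩

lemma lft_mono {u v : ℝ} (h : u < v) {k m m' : ℕ} (hm : m ≤ m') : lft u v k m ≤ lft u v k m' := by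
  unfold lft
  have : (m:ℝ) ≤ m' := by exact_mod_cast hm
  have h2 : (m:ℝ) / 2 ^ k ≤ (m':ℝ) / 2 ^ k := by gcongr
  nlinarith

lemma lft_strictMono {u v : ℝ} (h : u < v) {k m m' : ℕ} (hm : m < m') :
    lft u v k m < lft u v k m' := by
  unfold lft
  have : (m:ℝ) < m' := by exact_mod_cast hm
  have h2 : (m:ℝ) / 2 ^ k < (m':ℝ) / 2 ^ k := by gcongr
  nlinarith

lemma lft_zero (u v : ℝ) (k : ℕ) : lft u v k 0 = u := by unfold lft; simp
lemma lft_pow (u v : ℝ) (k : ℕ) : lft u v k (2 ^ k) = v := by unfold lft; simp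

lemma lft_add (u v : ℝ) (k d m : ℕ) : lft u v (k + d) (m * 2 ^ d) = lft u v k m := by
  unfold lft
  push_cast
  have h1 : (2:ℝ) ^ k ≠ 0 := by positivity
  have h2 : (2:ℝ) ^ d ≠ 0 := by positivity
  rw [pow_add]
  field_simp

lemma dy_bounds {C : Set ℝ} {u v : ℝ} (h : IsGap C u v) {k m : ℕ} (hm : m < 2 ^ k) :
    u ≤ lft u v k m ∧ lft u v k (m + 1) ≤ v := by
  constructor
  · calc u = lft u v k 0 := (lft_zero _ _ _).symm
      _ ≤ _ := lft_mono h.2.2.1 (Nat.zero_le _)
  · calc lft u v k (m + 1) ≤ lft u v k (2 ^ k) := lft_mono h.2.2.1 hm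
      _ = v := lft_pow _ _ _

lemma Dy.lt {C : Set ℝ} {p q : ℝ} (h : Dy C p q) : p < q := by
  obtain ⟨u, v, hg, k, m, hm, rfl, rfl⟩ := h
  exact lft_strictMono hg.2.2.1 (Nat.lt_succ_self m)

lemma Dy.notMem {C : Set ℝ} {p q : ℝ} (h : Dy C p q) (x : ℝ) (h1 : p < x) (h2 : x < q) :
    x ∉ C := by
  obtain ⟨u, v, hg, k, m, hm, rfl, rfl⟩ := h
  obtain ⟨b1, b2⟩ := dy_bounds hg hm
  exact hg.2.2.2 x (lt_of_le_of_lt b1 h1) (lt_of_lt_of_le h2 b2)

lemma nested_aux {u v : ℝ} (h : u < v) (k d m m' : ℕ) :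
    (lft u v k m ≤ lft u v (k + d) m' ∧ lft u v (k + d) (m' + 1) ≤ lft u v k (m + 1)) ∨
    lft u v k (m + 1) ≤ lft u v (k + d) m' ∨ lft u v (k + d) (m' + 1) ≤ lft u v k m := by
  rw [← lft_add u v k d m, ← lft_add u v k d (m + 1)]
  by_cases c1 : m' + 1 ≤ m * 2 ^ d
  · exact Or.inr (Or.inr (lft_mono h c1))
  by_cases c2 : (m + 1) * 2 ^ d ≤ m'
  · exact Or.inr (Or.inl (lft_mono h c2))
  push Not at c1 c2
  left
  exact ⟨lft_mono h (by omega), lft_mono h (by omega)⟩

lemma Dy.nested {C : Set ℝ} {p q p' q' : ℝ} (h : Dy C p q) (h' : Dy C p' q') :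
    (p ≤ p' ∧ q' ≤ q) ∨ (p' ≤ p ∧ q ≤ q') ∨ q ≤ p' ∨ q' ≤ p := by
  obtain ⟨u, v, hg, k, m, hm, rfl, rfl⟩ := h
  obtain ⟨u', v', hg', k', m', hm', rfl, rfl⟩ := h'
  obtain ⟨b1, b2⟩ := dy_bounds hg hm
  obtain ⟨b1', b2'⟩ := dy_bounds hg' hm'
  rcases gap_cmp hg hg' with ⟨rfl, rfl⟩ | h | h
  · rcases le_total k k' with hk | hk
    · obtain ⟨d, rfl⟩ := Nat.exists_eq_add_of_le hk
      rcases nested_aux hg.2.2.1 k d m m' with h | h | h
      · exact Or.inl h
      · exact Or.inr (Or.inr (Or.inl h))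
      · exact Or.inr (Or.inr (Or.inr h))
    · obtain ⟨d, rfl⟩ := Nat.exists_eq_add_of_le hk
      rcases nested_aux hg.2.2.1 k' d m' m with h | h | h
      · exact Or.inr (Or.inl h)
      · exact Or.inr (Or.inr (Or.inr h))
      · exact Or.inr (Or.inr (Or.inl h))
  · exact Or.inr (Or.inr (Or.inl (by linarith)))
  · exact Or.inr (Or.inr (Or.inr (by linarith)))

lemma linked_swap1 {a b c d : Circle} (h : Linked a b c d) : Linked b a c d := by
  unfold Linked at *; tauto

lemma linked_swap2 {a b c d : Circle} (h : Linked a b c d) : Linked a b d c := by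
  unfold Linked at *; tauto

lemma unlinked_Lam0 {C : Set ℝ} (a b c d : Circle) (h : (a, b) ∈ Lam0 C) (h' : (c, d) ∈ Lam0 C) :
    ¬ Linked a b c d := by
  rcases h with ⟨x, hx, h⟩ | ⟨p, q, hpq, h⟩ <;> rcases h' with ⟨x', hx', h'⟩ | ⟨p', q', hpq', h'⟩ <;>
    obtain ⟨rfl, rfl⟩ := Prod.mk.inj h <;> obtain ⟨rfl, rfl⟩ := Prod.mk.inj h'
  · rintro (⟨h1, -⟩ | ⟨h1, -⟩)
    · exact not_ccw_left _ _ h1
    · exact not_ccw_right _ _ h1
  · rintro (⟨h1, h2⟩ | ⟨h1, h2⟩)
    · rw [ccw_onePP] at h1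
      rw [ccw_PoneP] at h2
      linarith [hpq'.lt]
    · rw [ccw_PoneP] at h1
      rw [ccw_onePP] at h2
      exact hpq'.notMem x h1 h2 hx
  · have hlt := hpq.lt
    rintro (⟨h1, h2⟩ | ⟨h1, h2⟩)
    · rw [ccw_PPP] at h2
      have h3 : (x' - q) * (x' - p) < 0 := by
        by_contra hc; push Not at hc; nlinarith
      have h4 : p < x' := by
        by_contra hc; push Not at hc; nlinarith
      have h5 : x' < q := by
        by_contra hc; push Not at hc; nlinarith
      exact hpq.notMem x' h4 h5 hx'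
    · rw [ccw_PPone] at h1
      linarith
  · have hlt := hpq.lt
    have hlt' := hpq'.lt
    have hn := hpq.nested hpq'
    have in1 : ∀ y, 0 < (p - q) * ((y - q) * (y - p)) → p < y ∧ y < q := by
      intro y hy
      have h3 : (y - q) * (y - p) < 0 := by
        by_contra hc; push Not at hc; nlinarith
      constructor
      · by_contra hc; push Not at hc; nlinarith
      · by_contra hc; push Not at hc; nlinarith
    have out1 : ∀ y, 0 < (q - p) * ((y - p) * (y - q)) → y < p ∨ q < y := by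
      intro y hy
      by_contra hc
      push Not at hc
      have := mul_nonneg (sub_nonneg.2 hc.1) (sub_nonneg.2 hc.2)
      nlinarith
    rintro (⟨h1, h2⟩ | ⟨h1, h2⟩)
    · rw [ccw_PPP] at h1 h2
      obtain ⟨a1, a2⟩ := in1 _ h2
      rcases out1 _ h1 with o | o <;> rcases hn with ⟨n1, n2⟩ | ⟨n1, n2⟩ | n | n <;> linarith
    · rw [ccw_PPP] at h1 h2
      obtain ⟨a1, a2⟩ := in1 _ h1
      rcases out1 _ h2 with o | o <;> rcases hn with ⟨n1, n2⟩ | ⟨n1, n2⟩ | n | n <;> linarith

lemma isOpenEmbedding_P : IsOpenEmbedding P := by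
  have h := Theta.isOpenEmbedding.comp (OnePoint.isOpenEmbedding_coe (X := ℝ))
  exact h

lemma mem_Lam_PP {C : Set ℝ} {x y : ℝ} (h : (P x, P y) ∈ Lam C) : Dy C x y ∨ Dy C y x := by
  rcases h with (⟨c, hc, h⟩ | ⟨p, q, hpq, h⟩) | (⟨c, hc, h⟩ | ⟨p, q, hpq, h⟩)
  · exact absurd (Prod.mk.inj h).1 (P_ne_one _)
  · obtain ⟨h1, h2⟩ := Prod.mk.inj h
    rw [P_injective h1, P_injective h2]; exact Or.inl hpq
  · exact absurd (Prod.mk.inj h).1 (P_ne_one _)
  · obtain ⟨h1, h2⟩ := Prod.mk.inj h
    rw [P_injective h1, P_injective h2]; exact Or.inr hpq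

lemma Dy.mem {C : Set ℝ} {x y : ℝ} (h : Dy C x y) : (P x, P y) ∈ Lam C :=
  Or.inl (Or.inr ⟨x, y, h, rfl⟩)

lemma Lam_symm {C : Set ℝ} {a b : Circle} (h : (a, b) ∈ Lam C) : (b, a) ∈ Lam C := by
  rcases h with h | h
  · exact Or.inr h
  · exact Or.inl h

lemma mem_Lam_oneP {C : Set ℝ} {b : Circle} (h : (1, b) ∈ Lam C) : ∃ y ∈ C, b = P y := by
  rcases h with (⟨c, hc, h⟩ | ⟨p, q, hpq, h⟩) | (⟨c, hc, h⟩ | ⟨p, q, hpq, h⟩)
  · exact ⟨c, hc, (Prod.mk.inj h).2⟩
  · exact absurd (Prod.mk.inj h).1.symm (P_ne_one _)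
  · exact absurd (Prod.mk.inj h).2.symm (P_ne_one _)
  · exact absurd (Prod.mk.inj h).2.symm (P_ne_one _)

lemma dy_closed {C : Set ℝ} {x y : ℝ} (hxy : x < y)
    (h : ∃ᶠ l : ℝ × ℝ in 𝓝 (x, y), Dy C l.1 l.2) : Dy C x y := by
  set δ := (y - x) / 4 with hδ
  have hδ0 : 0 < δ := by rw [hδ]; linarith
  set W : Set (ℝ × ℝ) := Ioo (x - δ) (x + δ) ×ˢ Ioo (y - δ) (y + δ) with hW
  have hWn : W ∈ 𝓝 (x, y) :=
    prod_mem_nhds (Ioo_mem_nhds (by linarith) (by linarith)) (Ioo_mem_nhds (by linarith) (by linarith))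
  have h2 : ∃ᶠ l : ℝ × ℝ in 𝓝 (x, y), Dy C l.1 l.2 ∧ l ∈ W := h.and_eventually hWn
  obtain ⟨⟨p0, q0⟩, hd0, hw0⟩ := h2.exists
  obtain ⟨u, v, hg, k0, m0, hm0, hp0, hq0⟩ := hd0
  simp only at hp0 hq0
  have hw01 : p0 ∈ Ioo (x - δ) (x + δ) := hw0.1
  have hw02 : q0 ∈ Ioo (y - δ) (y + δ) := hw0.2
  obtain ⟨b1, b2⟩ := dy_bounds hg hm0
  rw [← hp0] at b1
  rw [← hq0] at b2
  have hμ1 : u < (x + y) / 2 := by have := hw01.2; linarith
  have hμ2 : (x + y) / 2 < v := by have := hw02.1; linarith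
  obtain ⟨N, hN⟩ : ∃ N : ℕ, (v - u) / (2 * δ) < 2 ^ N := pow_unbounded_of_one_lt _ one_lt_two
  set F : Set (ℝ × ℝ) := (fun km : ℕ × ℕ => (lft u v km.1 km.2, lft u v km.1 (km.2 + 1))) ''
    {km : ℕ × ℕ | km.1 < N ∧ km.2 < 2 ^ km.1} with hF
  have hFfin : F.Finite := by
    apply Set.Finite.image
    apply Set.Finite.subset (Set.Finite.prod (Set.finite_Iio N) (Set.finite_Iio (2 ^ N)))
    rintro ⟨k, m⟩ ⟨h1, h2⟩
    exact ⟨h1, lt_of_lt_of_le h2 (Nat.pow_le_pow_right (by norm_num) (le_of_lt h1))⟩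
  have h3 : ∃ᶠ l : ℝ × ℝ in 𝓝 (x, y), l ∈ F := by
    refine h2.mono ?_
    rintro ⟨p, q⟩ ⟨⟨u', v', hg', k, m, hm, hp, hq⟩, hw⟩
    simp only at hp hq
    have hw1 : p ∈ Ioo (x - δ) (x + δ) := hw.1
    have hw2 : q ∈ Ioo (y - δ) (y + δ) := hw.2
    obtain ⟨b1', b2'⟩ := dy_bounds hg' hm
    rw [← hp] at b1'
    rw [← hq] at b2'
    have hμ1' : u' < (x + y) / 2 := by have := hw1.2; linarith
    have hμ2' : (x + y) / 2 < v' := by have := hw2.1; linarith
    rcases gap_cmp hg hg' with ⟨rfl, rfl⟩ | h | h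
    · refine ⟨(k, m), ⟨?_, hm⟩, ?_⟩
      · have hlen : q - p = (v - u) / 2 ^ k := by
          rw [hp, hq]; unfold lft; push_cast; field_simp; ring
        have hge : 2 * δ < (v - u) / 2 ^ k := by
          rw [← hlen]; have := hw1.2; have := hw2.1; linarith
        have hk : (2:ℝ) ^ k < 2 ^ N := by
          refine lt_trans ?_ hN
          rw [lt_div_iff₀ (by positivity)] at hge ⊢
          linarith
        exact (pow_lt_pow_iff_right₀ one_lt_two).1 hk
      · simp only [Prod.mk.injEq]; exact ⟨hp.symm, hq.symm⟩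
    · linarith
    · linarith
  have h4 : (x, y) ∈ F := by
    have := mem_closure_iff_frequently.2 h3
    rwa [hFfin.isClosed.closure_eq] at this
  obtain ⟨⟨k, m⟩, ⟨hk, hm⟩, he⟩ := h4
  simp only [Prod.mk.injEq] at he
  exact ⟨u, v, hg, k, m, hm, he.1.symm, he.2.symm⟩

lemma Lam_closed_one {C : Set ℝ} (hC : IsClosed C) (hb : ∀ x, ∃ c ∈ C, c < x)
    (ha : ∀ x, ∃ c ∈ C, x < c) (y : ℝ) (h : ((1 : Circle), P y) ∈ closure (Lam C)) :
    (1, P y) ∈ Lam C := by
  by_contra hcon
  have hy : y ∉ C := fun hy => hcon (Or.inl (Or.inl ⟨y, hy, rfl⟩))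
  obtain ⟨c1, hc1, h1⟩ := hb y
  obtain ⟨c2, hc2, h2⟩ := ha y
  have hK : IsClosed (P '' Icc c1 c2) := (isCompact_Icc.image continuous_P).isClosed
  have hN1 : (P '' Icc c1 c2)ᶜ ∈ 𝓝 (1 : Circle) := by
    apply hK.isOpen_compl.mem_nhds
    rintro ⟨x, -, hx⟩
    exact P_ne_one x hx
  have hN2 : P '' (Cᶜ ∩ Ioo c1 c2) ∈ 𝓝 (P y) := by
    apply (isOpenEmbedding_P.isOpenMap _ (hC.isOpen_compl.inter isOpen_Ioo)).mem_nhds
    exact ⟨y, ⟨hy, h1, h2⟩, rfl⟩
  have := mem_closure_iff_nhds.1 h _ (prod_mem_nhds hN1 hN2)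
  obtain ⟨⟨a, b⟩, ⟨hA, hB⟩, hL⟩ := this
  simp only at hA hB
  obtain ⟨y', ⟨hy'C, hy'1, hy'2⟩, rfl⟩ := hB
  rcases circle_cases a with rfl | ⟨x', rfl⟩
  · obtain ⟨c, hc, he⟩ := mem_Lam_oneP hL
    exact hy'C (P_injective he ▸ hc)
  · have hx' : x' < c1 ∨ c2 < x' := by
      by_contra hc
      push Not at hc
      exact hA ⟨x', hc, rfl⟩
    rcases mem_Lam_PP hL with hd | hd
    · have := hd.lt
      rcases hx' with h | h
      · exact hd.notMem c1 h hy'1 hc1
      · linarith
    · have := hd.lt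
      rcases hx' with h | h
      · linarith
      · exact hd.notMem c2 hy'2 h hc2

lemma isLamination_Lam {C : Set ℝ} (hC : IsClosed C) (hb : ∀ x, ∃ c ∈ C, c < x)
    (ha : ∀ x, ∃ c ∈ C, x < c) : IsLamination (Lam C) where
  nonempty := by
    obtain ⟨c, hc, -⟩ := hb 0
    exact ⟨(1, P c), Or.inl (Or.inl ⟨c, hc, rfl⟩)⟩
  symm := fun a b h => Lam_symm h
  ne := by
    rintro a b ((⟨c, hc, h⟩ | ⟨p, q, hpq, h⟩) | (⟨c, hc, h⟩ | ⟨p, q, hpq, h⟩)) rfl
    · obtain ⟨h1, h2⟩ := Prod.mk.inj h
      exact P_ne_one c (h2.symm.trans h1)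
    · obtain ⟨h1, h2⟩ := Prod.mk.inj h
      exact hpq.lt.ne (P_injective (h1.symm.trans h2))
    · obtain ⟨h1, h2⟩ := Prod.mk.inj h
      exact P_ne_one c (h2.symm.trans h1)
    · obtain ⟨h1, h2⟩ := Prod.mk.inj h
      exact hpq.lt.ne (P_injective (h1.symm.trans h2))
  unlinked := by
    rintro a b c d (h | h) (h' | h') hl
    · exact unlinked_Lam0 a b c d h h' hl
    · exact unlinked_Lam0 a b d c h h' (linked_swap2 hl)
    · exact unlinked_Lam0 b a c d h h' (linked_swap1 hl)
    · exact unlinked_Lam0 b a d c h h' (linked_swap1 (linked_swap2 hl))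
  closed := by
    intro a b hab h
    rcases circle_cases a with rfl | ⟨x, rfl⟩
    · rcases circle_cases b with rfl | ⟨y, rfl⟩
      · exact absurd rfl hab
      · exact Lam_closed_one hC hb ha y h
    · rcases circle_cases b with rfl | ⟨y, rfl⟩
      · apply Lam_symm
        apply Lam_closed_one hC hb ha x
        have h1 : (P x, (1 : Circle)) ∈ closure (Prod.swap ⁻¹' (Lam C)) := by
          refine closure_mono ?_ h
          rintro ⟨a, b⟩ hab
          exact Lam_symm hab
        have h2 := (continuous_swap (X := Circle) (Y := Circle)).closure_preimage_subset (Lam C) h1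
        exact h2
      · have hne : x ≠ y := fun e => hab (by rw [e])
        have h1 : ∃ᶠ l : Circle × Circle in 𝓝 (P x, P y), l ∈ Lam C :=
          mem_closure_iff_frequently.1 h
        have hemb := isOpenEmbedding_P.prodMap isOpenEmbedding_P
        have h2 : 𝓝 (P x, P y) = Filter.map (Prod.map P P) (𝓝 (x, y)) :=
          (hemb.map_nhds_eq (x, y)).symm
        rw [h2, Filter.frequently_map] at h1
        have h3 : ∃ᶠ l : ℝ × ℝ in 𝓝 (x, y), Dy C l.1 l.2 ∨ Dy C l.2 l.1 :=
          h1.mono (fun l hl => mem_Lam_PP hl)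
        rw [Filter.frequently_or_distrib] at h3
        rcases h3 with h3 | h3
        · rcases lt_or_gt_of_ne hne with hlt | hgt
          · exact (dy_closed hlt h3).mem
          · exfalso
            have : ∀ᶠ l : ℝ × ℝ in 𝓝 (x, y), l.2 < l.1 :=
              (isOpen_lt continuous_snd continuous_fst).mem_nhds hgt
            obtain ⟨l, hl1, hl2⟩ := (h3.and_eventually this).exists
            linarith [hl1.lt]
        · rcases lt_or_gt_of_ne hne with hlt | hgt
          · exfalso
            have : ∀ᶠ l : ℝ × ℝ in 𝓝 (x, y), l.1 < l.2 :=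
              (isOpen_lt continuous_fst continuous_snd).mem_nhds hlt
            obtain ⟨l, hl1, hl2⟩ := (h3.and_eventually this).exists
            linarith [hl1.lt]
          · have h5 : ∃ᶠ l : ℝ × ℝ in 𝓝 (y, x), Dy C l.1 l.2 := by
              have h6 := (continuous_swap (X := ℝ) (Y := ℝ)).tendsto (x, y)
              exact h6.frequently h3
            exact Lam_symm (dy_closed hgt h5).mem

lemma ball_ineq {z : ℂ} (hz : z ∈ Metric.ball (0:ℂ) 1) : z.re ^ 2 + z.im ^ 2 < 1 := by
  rw [mem_ball_zero_iff] at hz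
  have h1 : ‖z‖ ^ 2 < 1 := by nlinarith [norm_nonneg z]
  rw [← Complex.normSq_eq_norm_sq, Complex.normSq_apply] at h1
  nlinarith

lemma ball_re {z : ℂ} (hz : z ∈ Metric.ball (0:ℂ) 1) : 0 < 1 - z.re ∧ 1 - z.re < 2 := by
  have := ball_ineq hz
  constructor <;> nlinarith [sq_nonneg z.im]

lemma chord_one {z : ℂ} (hz : z ∈ Metric.ball (0:ℂ) 1) (c : ℝ)
    (h : - z.im - c * (1 - z.re) = 0) : z ∈ openSegment ℝ ((1 : Circle) : ℂ) (P c) := by
  obtain ⟨h1, h2⟩ := ball_re hz
  have h3 := ball_ineq hz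
  have him : z.im = - (c * (1 - z.re)) := by linarith
  have hc : 0 < c ^ 2 + 1 := by positivity
  have hlt : (1 - z.re) * (c ^ 2 + 1) < 2 := by
    have h4 : (1 - z.re) * (c ^ 2 * (1 - z.re)) < (1 - z.re) * (1 + z.re) := by
      rw [him] at h3; nlinarith
    have h5 := lt_of_mul_lt_mul_left h4 h1.le
    nlinarith
  refine ⟨1 - (1 - z.re) * (c ^ 2 + 1) / 2, (1 - z.re) * (c ^ 2 + 1) / 2, by linarith,
    by positivity, by ring, ?_⟩
  apply Complex.ext
  · simp only [Complex.add_re, Complex.real_smul, Complex.mul_re, Complex.ofReal_re,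
      Complex.ofReal_im, Circle.coe_one, Complex.one_re, Complex.one_im, P_re, P_im]
    field_simp
    ring
  · simp only [Complex.add_im, Complex.real_smul, Complex.mul_im, Complex.ofReal_re,
      Complex.ofReal_im, Circle.coe_one, Complex.one_re, Complex.one_im, P_re, P_im]
    rw [him]
    field_simp
    ring

lemma ell_id (p q : ℝ) (z : ℂ) :
    (- z.im - p * (1 - z.re)) * (q * (1 - z.re) + z.im) + (1 - z.re) * ell p q z =
      1 - z.re ^ 2 - z.im ^ 2 := by
  unfold ell; ring

lemma chord_two {z : ℂ} (hz : z ∈ Metric.ball (0:ℂ) 1) (p q : ℝ) (hpq : p < q)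
    (h : ell p q z = 0) : z ∈ openSegment ℝ (P p : ℂ) (P q) := by
  obtain ⟨h1, h2⟩ := ball_re hz
  have h3 := ball_ineq hz
  have hid := ell_id p q z
  rw [h, mul_zero, add_zero] at hid
  set A := - z.im - p * (1 - z.re) with hA
  set B := q * (1 - z.re) + z.im with hB
  have hAB : 0 < A * B := by rw [hid]; linarith
  have hsum : A + B = (q - p) * (1 - z.re) := by rw [hA, hB]; ring
  have hsum0 : 0 < A + B := by rw [hsum]; exact mul_pos (by linarith) h1
  have hA0 : 0 < A := by
    by_contra hc; push Not at hc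
    have : B ≤ 0 := by
      by_contra hc2; push Not at hc2; nlinarith
    linarith
  have hB0 : 0 < B := by
    by_contra hc; push Not at hc; nlinarith
  have hqp : 0 < q - p := by linarith
  have hqp' : q - p ≠ 0 := hqp.ne'
  have hell : ell p q z = 0 := h
  unfold ell at hell
  have hq1 : q ^ 2 + 1 ≠ 0 := by positivity
  have hp1 : p ^ 2 + 1 ≠ 0 := by positivity
  refine ⟨B * (p ^ 2 + 1) / (2 * (q - p)), A * (q ^ 2 + 1) / (2 * (q - p)), by positivity,
    by positivity, ?_, ?_⟩
  · field_simp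
    rw [hA, hB]
    linear_combination (p - q) * hell
  · apply Complex.ext
    · simp only [Complex.add_re, Complex.real_smul, Complex.mul_re, Complex.ofReal_re,
        Complex.ofReal_im, P_re, P_im, zero_mul, sub_zero]
      have e1 : B * (p ^ 2 + 1) / (2 * (q - p)) * ((p ^ 2 - 1) / (p ^ 2 + 1)) =
        B * (p ^ 2 - 1) / (2 * (q - p)) := by field_simp
      have e2 : A * (q ^ 2 + 1) / (2 * (q - p)) * ((q ^ 2 - 1) / (q ^ 2 + 1)) =
        A * (q ^ 2 - 1) / (2 * (q - p)) := by field_simp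
      rw [e1, e2, ← add_div, div_eq_iff (by positivity), hA, hB]
      linear_combination (p - q) * hell
    · simp only [Complex.add_im, Complex.real_smul, Complex.mul_im, Complex.ofReal_re,
        Complex.ofReal_im, P_re, P_im]
      field_simp
      rw [hA, hB]
      ring

lemma area_PP_pos {p q : ℝ} (hpq : p < q) {z : ℂ} (h : 0 < ell p q z) :
    0 < area (P p) (P q) z := by
  rw [area_PP]
  have : 0 < q - p := by linarith
  positivity

lemma area_PP_pos' {p q : ℝ} (hpq : p < q) {z : ℂ} (h : ell p q z < 0) :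
    0 < area (P q) (P p) z := by
  rw [area_PP]
  have h1 : ell q p z = ell p q z := by unfold ell; ring
  rw [h1]
  have h2 : 2 * (p - q) / ((q ^ 2 + 1) * (p ^ 2 + 1)) < 0 := by
    apply div_neg_of_neg_of_pos (by linarith) (by positivity)
  exact mul_pos_of_neg_of_neg h2 h

lemma gap_mem_of_openSegment {C : Set ℝ} {z : ℂ} (hz : z ∈ complementary (Lam C))
    {a b : Circle} (hab : (a, b) ∈ Lam C) : z ∉ openSegment ℝ (a:ℂ) b := by
  intro h
  apply hz.2
  simp only [mem_iUnion]
  exact ⟨(a, b), hab, h⟩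

theorem veryFull_Lam {C : Set ℝ} (hC : IsClosed C) (hb : ∀ x, ∃ c ∈ C, c < x)
    (ha : ∀ x, ∃ c ∈ C, x < c) : VeryFull (Lam C) := by
  have hΛ := isLamination_Lam hC hb ha
  intro z hz
  obtain ⟨h1, h2⟩ := ball_re hz.1
  have h3 := ball_ineq hz.1
  set y := - z.im / (1 - z.re) with hy
  have hyim : - z.im = y * (1 - z.re) := by rw [hy]; field_simp
  have hyC : y ∉ C := by
    intro hyC
    exact gap_mem_of_openSegment hz (Or.inl (Or.inl ⟨y, hyC, rfl⟩))
      (chord_one hz.1 y (by linarith))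
  obtain ⟨u, v, hg, huy, hyv⟩ := gap_exists hC hb ha y hyC
  have huv := hg.2.2.1
  have leaf : ∀ p q, Dy C p q → ell p q z ≠ 0 := fun p q hd h0 =>
    gap_mem_of_openSegment hz hd.mem (chord_two hz.1 p q hd.lt h0)
  have hdy : ∀ k m : ℕ, m < 2 ^ k → Dy C (lft u v k m) (lft u v k (m + 1)) :=
    fun k m hm => ⟨u, v, hg, k, m, hm, rfl, rfl⟩
  by_cases hneg : 0 < ell u v z
  · -- the triangle with vertices `1`, `u`, `v`
    apply triangle_gap (Lam C) hΛ 1 (P u) (P v) ((ccw_onePP _ _).2 huv)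
      (Or.inl (Or.inl ⟨u, hg.1, rfl⟩))
    · have := (hdy 0 0 (by norm_num)).mem
      rw [show (0:ℕ) + 1 = 2 ^ 0 by norm_num, lft_pow, lft_zero] at this
      exact this
    · exact Or.inr (Or.inl ⟨v, hg.2.1, rfl⟩)
    · refine ⟨?_, area_PP_pos huv hneg, ?_⟩
      · rw [area_oneP]
        have : 0 < - z.im - u * (1 - z.re) := by rw [hyim]; nlinarith
        positivity
      · rw [area_swap, area_oneP]
        have : 0 < z.im + v * (1 - z.re) := by nlinarith
        have h5 : 0 < 2 / (v ^ 2 + 1) * (z.im + v * (1 - z.re)) := by positivity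
        linarith
  · have hlt : ell u v z < 0 := by
      rcases lt_trichotomy (ell u v z) 0 with h | h | h
      · exact h
      · exfalso
        have := leaf _ _ (hdy 0 0 (by norm_num))
        rw [show (0:ℕ) + 1 = 2 ^ 0 by norm_num, lft_pow, lft_zero] at this
        exact this h
      · exact absurd h hneg
    classical
    set Q : ℕ → Prop := fun k => ∃ m : ℕ, m < 2 ^ k ∧ ell (lft u v k m) (lft u v k (m + 1)) z < 0
      with hQ
    have hQ0 : Q 0 := by
      refine ⟨0, by norm_num, ?_⟩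
      rw [show (0:ℕ) + 1 = 2 ^ 0 by norm_num, lft_pow, lft_zero]
      exact hlt
    have hex : ∃ k, ¬ Q k := by
      have hρ : 0 < 1 - z.re ^ 2 - z.im ^ 2 := by linarith
      obtain ⟨k, hk⟩ : ∃ k : ℕ, (v - u) ^ 2 / (1 - z.re ^ 2 - z.im ^ 2) < 2 ^ k :=
        pow_unbounded_of_one_lt _ one_lt_two
      refine ⟨k, ?_⟩
      rintro ⟨m, hm, hl⟩
      set p := lft u v k m with hp
      set q := lft u v k (m + 1) with hq
      have hlen : q - p = (v - u) / 2 ^ k := by
        rw [hp, hq]; unfold lft; push_cast; field_simp; ring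
      have hid := ell_id p q z
      have hsum : (- z.im - p * (1 - z.re)) + (q * (1 - z.re) + z.im) = (q - p) * (1 - z.re) := by
        ring
      have h5 : 1 - z.re ^ 2 - z.im ^ 2 < (q - p) ^ 2 := by
        have h6 : (1 - z.re) * ell p q z < 0 := mul_neg_of_pos_of_neg h1 hl
        have h7 : (- z.im - p * (1 - z.re)) * (q * (1 - z.re) + z.im) ≤
            ((q - p) * (1 - z.re)) ^ 2 / 4 := by
          rw [← hsum]; nlinarith [sq_nonneg ((- z.im - p * (1 - z.re)) - (q * (1 - z.re) + z.im))]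
        have h8 : ((q - p) * (1 - z.re)) ^ 2 / 4 ≤ (q - p) ^ 2 := by
          have : (1 - z.re) ^ 2 ≤ 4 := by nlinarith
          rw [mul_pow]
          nlinarith [sq_nonneg (q - p)]
        linarith
      rw [hlen, div_pow] at h5
      rw [div_lt_iff₀ hρ] at hk
      have h6 : (1 - z.re ^ 2 - z.im ^ 2) * (2 ^ k) ^ 2 < (v - u) ^ 2 := by
        rwa [lt_div_iff₀ (by positivity)] at h5
      have h7 : (1:ℝ) ≤ 2 ^ k := one_le_pow₀ (by norm_num)
      have h8 : (2:ℝ) ^ k * (1 - z.re ^ 2 - z.im ^ 2) ≤ (1 - z.re ^ 2 - z.im ^ 2) * (2 ^ k) ^ 2 := by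
        nlinarith [mul_pos hρ (lt_of_lt_of_le one_pos h7), mul_le_mul_of_nonneg_left h7 (mul_pos hρ (lt_of_lt_of_le one_pos h7)).le]
      linarith
    obtain ⟨j, hj⟩ : ∃ j, Nat.find hex = j + 1 := by
      rcases Nat.exists_eq_succ_of_ne_zero (n := Nat.find hex) (by
        intro h0
        have := Nat.find_spec hex
        rw [h0] at this
        exact this hQ0) with ⟨j, hj⟩
      exact ⟨j, hj⟩
    have hnQ : ¬ Q (j + 1) := by rw [← hj]; exact Nat.find_spec hex
    have hQj : Q j := by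
      by_contra hc
      have := Nat.find_min' hex hc
      omega
    obtain ⟨m, hm, hl⟩ := hQj
    have e0 : lft u v (j + 1) (2 * m) = lft u v j m := by
      rw [← lft_add u v j 1 m]; congr 1; ring
    have e2 : lft u v (j + 1) (2 * m + 1 + 1) = lft u v j (m + 1) := by
      rw [← lft_add u v j 1 (m + 1)]; congr 1; ring
    have hm1 : 2 * m < 2 ^ (j + 1) := by rw [pow_succ]; omega
    have hm2 : 2 * m + 1 < 2 ^ (j + 1) := by rw [pow_succ]; omega
    have d1 := hdy (j + 1) (2 * m) hm1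
    have d2 := hdy (j + 1) (2 * m + 1) hm2
    have d0 := hdy j m hm
    have l1 : 0 < ell (lft u v (j + 1) (2 * m)) (lft u v (j + 1) (2 * m + 1)) z := by
      rcases lt_trichotomy (ell (lft u v (j + 1) (2 * m)) (lft u v (j + 1) (2 * m + 1)) z) 0 with h | h | h
      · exact absurd ⟨2 * m, hm1, h⟩ hnQ
      · exact absurd h (leaf _ _ d1)
      · exact h
    have l2 : 0 < ell (lft u v (j + 1) (2 * m + 1)) (lft u v (j + 1) (2 * m + 1 + 1)) z := by
      rcases lt_trichotomy (ell (lft u v (j + 1) (2 * m + 1)) (lft u v (j + 1) (2 * m + 1 + 1)) z) 0 with h | h | h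
      · exact absurd ⟨2 * m + 1, hm2, h⟩ hnQ
      · exact absurd h (leaf _ _ d2)
      · exact h
    have t1 := d1.lt
    have t2 := d2.lt
    have t0 := d0.lt
    rw [e0] at d1 l1 t1
    rw [e2] at d2 l2 t2
    set p := lft u v j m
    set q := lft u v j (m + 1)
    set r := lft u v (j + 1) (2 * m + 1)
    apply triangle_gap (Lam C) hΛ (P p) (P r) (P q)
      (by rw [ccw_PPP]; exact mul_pos (by linarith) (mul_pos (by linarith) (by linarith)))
      d1.mem d2.mem (Lam_symm d0.mem)
    exact ⟨area_PP_pos t1 l1, area_PP_pos t2 l2, area_PP_pos' t0 hl⟩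

/-! ### the gaps fill a dense part of the disc -/

lemma dense_Lam {C : Set ℝ} (hC : IsClosed C) (hb : ∀ x, ∃ c ∈ C, c < x)
    (ha : ∀ x, ∃ c ∈ C, x < c) (hint : ∀ a b : ℝ, a < b → ∃ y, a < y ∧ y < b ∧ y ∉ C) :
    Metric.ball (0:ℂ) 1 ⊆ closure (complementary (Lam C)) := by
  intro z hz
  obtain ⟨h1, h2⟩ := ball_re hz
  set y₀ := - z.im / (1 - z.re) with hy
  have hyim : - z.im = y₀ * (1 - z.re) := by rw [hy]; field_simp
  obtain ⟨s, t₀, hs, ht, hst, hz0⟩ := chord_one hz y₀ (by linarith)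
  have hs' : s = 1 - t₀ := by linarith
  subst hs'
  -- the map from the half plane
  have hcont : Continuous (fun x : ℝ × ℝ => (1 - x.2) • ((1 : Circle) : ℂ) + x.2 • (P x.1 : ℂ)) := by
    have := circle_isEmbedding.continuous.comp (continuous_P.comp (continuous_fst (X := ℝ) (Y := ℝ)))
    have h' : Continuous (fun x : ℝ × ℝ => (P x.1 : ℂ)) := this
    fun_prop
  rw [mem_closure_iff_nhds]
  intro W hW
  have hpre : (fun x : ℝ × ℝ => (1 - x.2) • ((1 : Circle) : ℂ) + x.2 • (P x.1 : ℂ)) ⁻¹' W ∈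
      𝓝 (y₀, t₀) := by
    apply hcont.continuousAt.preimage_mem_nhds
    simp only
    rw [hz0]; exact hW
  rw [nhds_prod_eq, Filter.mem_prod_iff] at hpre
  obtain ⟨A, hA, B, hB, hAB⟩ := hpre
  obtain ⟨a1, a2, ha12, haA⟩ := mem_nhds_iff_exists_Ioo_subset.1 hA
  obtain ⟨y, hy1, hy2, hyC⟩ := hint a1 a2 (ha12.1.trans ha12.2)
  have hyA : y ∈ A := haA ⟨hy1, hy2⟩
  have hB' : B ∩ Ioo 0 1 ∈ 𝓝 t₀ := Filter.inter_mem hB (Ioo_mem_nhds ht (by linarith))
  obtain ⟨u, v, hg, huy, hyv⟩ := gap_exists hC hb ha y hyC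
  -- bad parameters
  set Bad : Set ℝ := ⋃ km : ℕ × ℕ, {t : ℝ | km.2 < 2 ^ km.1 ∧
    area (P (lft u v km.1 km.2)) (P (lft u v km.1 (km.2 + 1)))
      ((1 - t) • ((1 : Circle) : ℂ) + t • (P y : ℂ)) = 0} with hBad
  have hBadc : Bad.Countable := by
    apply Set.countable_iUnion
    rintro ⟨k, m⟩
    apply Set.Subsingleton.countable
    rintro t ⟨hm, ht⟩ t' ⟨-, ht'⟩
    simp only at ht ht' hm
    have hlt : lft u v k m < lft u v k (m + 1) := lft_strictMono hg.2.2.1 (Nat.lt_succ_self m)
    rw [area_combo _ _ _ _ _ _ (by ring)] at ht ht'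
    have hpos : 0 < area (P (lft u v k m)) (P (lft u v k (m + 1))) ((1 : Circle) : ℂ) :=
      (ccw_PPone _ _).2 hlt
    set α := area (P (lft u v k m)) (P (lft u v k (m + 1))) ((1 : Circle) : ℂ)
    set β := area (P (lft u v k m)) (P (lft u v k (m + 1))) (P y)
    have hne : β - α ≠ 0 := by
      intro h0
      have : β = α := by linarith
      rw [this] at ht
      have : α = 0 := by linarith
      linarith
    have e1 : t * (β - α) = - α := by linarith
    have e2 : t' * (β - α) = - α := by linarith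
    exact mul_right_cancel₀ hne (e1.trans e2.symm)
  have hdense := hBadc.dense_compl ℝ
  obtain ⟨t, ⟨htB, ht01⟩, htbad⟩ := (mem_closure_iff_nhds.1 (hdense t₀)) _ hB'
  refine ⟨(1 - t) • ((1 : Circle) : ℂ) + t • (P y : ℂ), hAB (Set.mk_mem_prod hyA htB), ?_, ?_⟩
  · have hseg : (1 - t) • ((1 : Circle) : ℂ) + t • (P y : ℂ) ∈ openSegment ℝ ((1 : Circle) : ℂ) (P y) :=
      ⟨1 - t, t, by linarith [ht01.2], ht01.1, by ring, rfl⟩
    have hne : ((1 : Circle) : ℂ) ≠ (P y : ℂ) := fun h => P_ne_one y (Circle.ext h.symm)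
    have := (strictConvex_closedBall ℝ (0:ℂ) 1).openSegment_subset
      (x := ((1 : Circle) : ℂ)) (y := (P y : ℂ)) (by simp [Circle.norm_coe]) (by simp [Circle.norm_coe]) hne hseg
    rwa [interior_closedBall _ one_ne_zero] at this
  · simp only [mem_iUnion, not_exists]
    have main : ∀ a b : Circle, (a, b) ∈ Lam0 C →
        (1 - t) • ((1 : Circle) : ℂ) + t • (P y : ℂ) ∉ openSegment ℝ (a : ℂ) b := by
      intro a b hab hseg
      have harea : area a b ((1 - t) • ((1 : Circle) : ℂ) + t • (P y : ℂ)) = 0 := by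
        obtain ⟨s, t', -, -, hst', he⟩ := hseg
        rw [← he, area_combo _ _ _ _ _ _ hst', area_self_left, area_self_right]
        ring
      have harea' := harea
      rw [area_combo _ _ _ _ _ _ (by ring)] at harea
      rcases hab with ⟨c, hc, h⟩ | ⟨p, q, ⟨u', v', hg', k, m, hm, hp, hq⟩, h⟩ <;>
        obtain ⟨rfl, rfl⟩ := Prod.mk.inj h
      · rw [area_self_left, mul_zero, zero_add] at harea
        rw [area_onePP] at harea
        have hyc : y - c = 0 := by
          rcases mul_eq_zero.1 harea with h0 | h0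
          · exact absurd h0 ht01.1.ne'
          · rcases mul_eq_zero.1 h0 with h1 | h1
            · exfalso
              have : 0 < 4 / ((c ^ 2 + 1) * (y ^ 2 + 1)) := by positivity
              linarith
            · exact h1
        exact hyC ((sub_eq_zero.1 hyc) ▸ hc)
      · have hd : Dy C p q := ⟨u', v', hg', k, m, hm, hp, hq⟩
        obtain ⟨b1, b2⟩ := dy_bounds hg' hm
        rw [← hp] at b1
        rw [← hq] at b2
        have hlt := hd.lt
        have h1pos : 0 < area (P p) (P q) ((1 : Circle) : ℂ) := (ccw_PPone _ _).2 hlt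
        have out : (y < p ∨ q < y) → False := by
          intro hout
          have : 0 < area (P p) (P q) (P y : ℂ) := by
            refine (ccw_PPP _ _ _).2 ?_
            rcases hout with h | h
            · exact mul_pos (by linarith) (mul_pos_of_neg_of_neg (by linarith) (by linarith))
            · exact mul_pos (by linarith) (mul_pos (by linarith) (by linarith))
          have := mul_pos ht01.1 this
          have := mul_pos (sub_pos.2 ht01.2) h1pos
          linarith
        rcases gap_cmp hg hg' with ⟨rfl, rfl⟩ | h | h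
        · apply htbad
          rw [hBad, mem_iUnion]
          refine ⟨(k, m), hm, ?_⟩
          simp only
          rw [← hp, ← hq]
          exact harea'
        · exact out (Or.inl (by linarith))
        · exact out (Or.inr (by linarith))
    rintro ⟨a, b⟩ (hab | hab) hseg
    · exact main a b hab hseg
    · rw [openSegment_symm] at hseg
      exact main b a hab hseg

/-! ### The closed set -/

/-- period two copies of the middle third Cantor set -/
def KC : Set ℝ := {x | ∃ n : ℤ, x - 2 * n ∈ cantorSet}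

lemma mem_KC {x : ℝ} : x ∈ KC ↔ ∃ n : ℤ, x - 2 * n ∈ cantorSet := Iff.rfl

lemma cantor_bounds {x : ℝ} (h : x ∈ cantorSet) : 0 ≤ x ∧ x ≤ 1 :=
  cantorSet_subset_unitInterval h

lemma one_mem_cantor : (1:ℝ) ∈ cantorSet := by
  simp only [cantorSet, mem_iInter]
  intro n
  induction n with
  | zero => simp
  | succ n ih =>
    rw [preCantorSet_succ]
    right
    exact ⟨1, ih, by norm_num⟩

lemma cantor_step (x : ℝ) : x ∈ cantorSet ↔ (3 * x ∈ cantorSet ∨ 3 * x - 2 ∈ cantorSet) := by
  conv_lhs => rw [cantorSet_eq_union_halves]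
  constructor
  · rintro (⟨y, hy, rfl⟩ | ⟨y, hy, rfl⟩)
    · left; convert hy using 1; ring
    · right; convert hy using 1; ring
  · rintro (h | h)
    · left; exact ⟨_, h, by ring⟩
    · right; exact ⟨_, h, by ring⟩

lemma isClosed_KC : IsClosed KC := by
  have h1 : IsCompact ((fun x : ℝ => (x : AddCircle (2:ℝ))) '' cantorSet) :=
    isCompact_cantorSet.image (AddCircle.continuous_mk' 2)
  have h2 : KC = (fun x : ℝ => (x : AddCircle (2:ℝ))) ⁻¹' ((fun x : ℝ => (x : AddCircle (2:ℝ))) '' cantorSet) := by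
    ext x
    simp only [mem_KC, mem_preimage, mem_image]
    constructor
    · rintro ⟨n, hn⟩
      refine ⟨_, hn, ?_⟩
      rw [← sub_eq_zero, ← AddCircle.coe_sub, AddCircle.coe_eq_zero_iff]
      exact ⟨-n, by push_cast [zsmul_eq_mul]; ring⟩
    · rintro ⟨y, hy, hxy⟩
      rw [← sub_eq_zero, ← AddCircle.coe_sub, AddCircle.coe_eq_zero_iff] at hxy
      obtain ⟨n, hn⟩ := hxy
      refine ⟨-n, ?_⟩
      rw [zsmul_eq_mul] at hn
      push_cast
      convert hy using 1
      linarith
  have : IsClosed ((fun x : ℝ => (x : AddCircle (2:ℝ))) '' cantorSet) := by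
    have : Fact ((0:ℝ) < 2) := ⟨two_pos⟩
    exact h1.isClosed
  rw [h2]
  exact this.preimage (AddCircle.continuous_mk' 2)

lemma even_mem_KC (n : ℤ) : (2 * n : ℝ) ∈ KC := ⟨n, by simpa using zero_mem_cantorSet⟩
lemma odd_mem_KC (n : ℤ) : (2 * n + 1 : ℝ) ∈ KC :=
  ⟨n, by convert one_mem_cantor using 1; ring⟩

lemma KC_below (x : ℝ) : ∃ c ∈ KC, c < x := by
  refine ⟨2 * ((⌊x / 2⌋ - 1 : ℤ) : ℝ), even_mem_KC _, ?_⟩
  have := Int.floor_le (x / 2)
  push_cast
  linarith

lemma KC_above (x : ℝ) : ∃ c ∈ KC, x < c := by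
  refine ⟨2 * ((⌊x / 2⌋ + 1 : ℤ) : ℝ), even_mem_KC _, ?_⟩
  have := Int.lt_floor_add_one (x / 2)
  push_cast
  linarith

/-- membership for points of a period -/
lemma KC_iff {x : ℝ} {n : ℤ} (h0 : 0 ≤ x - 2 * n) (h1 : x - 2 * n < 2) :
    x ∈ KC ↔ x - 2 * n ∈ cantorSet := by
  constructor
  · rintro ⟨m, hm⟩
    obtain ⟨b1, b2⟩ := cantor_bounds hm
    have e : m = n := by
      have c1 : (m:ℝ) < n + 1 := by linarith
      have c2 : (n:ℝ) < m + 1 := by linarith
      have c1' : m < n + 1 := by exact_mod_cast c1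
      have c2' : n < m + 1 := by exact_mod_cast c2
      omega
    rwa [e] at hm
  · intro h; exact ⟨n, h⟩

lemma cantor_no_interval (n : ℕ) : ∀ a b : ℝ, (∀ y, a < y → y < b → y ∈ cantorSet) → a < b →
    b - a ≤ (1 / 3) ^ n := by
  induction n with
  | zero =>
    intro a b h hab
    simp only [pow_zero]
    have h1 : 0 ≤ a := by
      by_contra hc; push Not at hc
      have := (cantor_bounds (h ((a + min b 0) / 2) (by
        have : a < min b 0 := lt_min hab hc
        linarith) (by
        have : a < min b 0 := lt_min hab hc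
        have := min_le_left b 0
        linarith))).1
      have : a < min b 0 := lt_min hab hc
      have := min_le_right b 0
      linarith
    have h2 : b ≤ 1 := by
      by_contra hc; push Not at hc
      have := (cantor_bounds (h ((b + max a 1) / 2) (by
        have : max a 1 < b := max_lt hab hc
        have := le_max_left a 1
        linarith) (by
        have : max a 1 < b := max_lt hab hc
        linarith))).2
      have : max a 1 < b := max_lt hab hc
      have := le_max_right a 1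
      linarith
    linarith
  | succ n ih =>
    intro a b h hab
    have hdich : b ≤ 1 / 3 ∨ 2 / 3 ≤ a := by
      by_contra hc
      push Not at hc
      obtain ⟨c1, c2⟩ := hc
      have e1 : max a (1/3) < min b (2/3) := by
        rw [lt_min_iff, max_lt_iff, max_lt_iff]
        exact ⟨⟨hab, c1⟩, ⟨c2, by norm_num⟩⟩
      have e2 := le_max_left a (1/3)
      have e3 := le_max_right a (1/3)
      have e4 := min_le_left b (2/3)
      have e5 := min_le_right b (2/3)
      have hy := h ((max a (1/3) + min b (2/3)) / 2) (by linarith) (by linarith)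
      rw [cantor_step] at hy
      rcases hy with hy | hy
      · have := (cantor_bounds hy).2; linarith
      · have := (cantor_bounds hy).1; linarith
    rw [pow_succ]
    rcases hdich with hd | hd
    · have := ih (3 * a) (3 * b) (by
        intro y hy1 hy2
        have hm := h (y / 3) (by linarith) (by linarith)
        rw [cantor_step] at hm
        rcases hm with hm | hm
        · convert hm using 1; ring
        · exfalso; have := (cantor_bounds hm).1; linarith) (by linarith)
      linarith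
    · have := ih (3 * a - 2) (3 * b - 2) (by
        intro y hy1 hy2
        have hm := h ((y + 2) / 3) (by linarith) (by linarith)
        rw [cantor_step] at hm
        rcases hm with hm | hm
        · exfalso; have := (cantor_bounds hm).2; linarith
        · convert hm using 1; ring) (by linarith)
      linarith

lemma cantor_empty_interior (a b : ℝ) (hab : a < b) : ∃ y, a < y ∧ y < b ∧ y ∉ cantorSet := by
  by_contra hc
  push Not at hc
  obtain ⟨n, hn⟩ : ∃ n : ℕ, (1 / 3 : ℝ) ^ n < b - a :=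
    exists_pow_lt_of_lt_one (by linarith) (by norm_num)
  have := cantor_no_interval n a b hc hab
  linarith

lemma KC_empty_interior (a b : ℝ) (hab : a < b) : ∃ y, a < y ∧ y < b ∧ y ∉ KC := by
  set n := ⌊a / 2⌋ with hn
  have h1 := Int.floor_le (a / 2)
  have h2 := Int.lt_floor_add_one (a / 2)
  rw [← hn] at h1 h2
  have hlt : a < min b (2 * n + 2) := lt_min hab (by linarith)
  obtain ⟨y, hy1, hy2, hy3⟩ := cantor_empty_interior (a - 2 * n) (min b (2 * n + 2) - 2 * n)
    (by linarith)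
  have e1 := min_le_left b (2 * n + 2)
  have e2 := min_le_right b (2 * n + 2)
  refine ⟨y + 2 * n, by linarith, by linarith, ?_⟩
  rw [KC_iff (n := n) (by linarith) (by linarith)]
  convert hy3 using 2
  ring

/-! ### The two homeomorphisms of the line -/

/-- translation by two -/
def Aiso : ℝ ≃o ℝ := OrderIso.addRight 2

lemma Aiso_apply (x : ℝ) : Aiso x = x + 2 := rfl

noncomputable def tf (x : ℝ) : ℝ := 6 * ⌊x / 4⌋ + min (3 * (x - 4 * ⌊x / 4⌋)) (x - 4 * ⌊x / 4⌋ + 2)
noncomputable def tg (y : ℝ) : ℝ := 4 * ⌊y / 6⌋ + max ((y - 6 * ⌊y / 6⌋) / 3) (y - 6 * ⌊y / 6⌋ - 2)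

lemma floor4 {x : ℝ} {n : ℤ} (h0 : 0 ≤ x - 4 * n) (h1 : x - 4 * n < 4) : ⌊x / 4⌋ = n := by
  rw [Int.floor_eq_iff]; constructor <;> linarith

lemma floor6 {x : ℝ} {n : ℤ} (h0 : 0 ≤ x - 6 * n) (h1 : x - 6 * n < 6) : ⌊x / 6⌋ = n := by
  rw [Int.floor_eq_iff]; constructor <;> linarith

lemma tf_eq {x : ℝ} {n : ℤ} (h0 : 0 ≤ x - 4 * n) (h1 : x - 4 * n < 4) :
    tf x = 6 * n + min (3 * (x - 4 * n)) (x - 4 * n + 2) := by
  unfold tf; rw [floor4 h0 h1]

lemma tg_eq {x : ℝ} {n : ℤ} (h0 : 0 ≤ x - 6 * n) (h1 : x - 6 * n < 6) :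
    tg x = 4 * n + max ((x - 6 * n) / 3) (x - 6 * n - 2) := by
  unfold tg; rw [floor6 h0 h1]

lemma per4 (x : ℝ) : ∃ n : ℤ, 0 ≤ x - 4 * n ∧ x - 4 * n < 4 :=
  ⟨⌊x / 4⌋, by have := Int.floor_le (x / 4); linarith,
    by have := Int.lt_floor_add_one (x / 4); linarith⟩

lemma per6 (x : ℝ) : ∃ n : ℤ, 0 ≤ x - 6 * n ∧ x - 6 * n < 6 :=
  ⟨⌊x / 6⌋, by have := Int.floor_le (x / 6); linarith,
    by have := Int.lt_floor_add_one (x / 6); linarith⟩

lemma tf_mono : StrictMono tf := by
  intro x y hxy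
  obtain ⟨n, hn0, hn1⟩ := per4 x
  obtain ⟨m, hm0, hm1⟩ := per4 y
  rw [tf_eq hn0 hn1, tf_eq hm0 hm1]
  have hnm : n ≤ m := by
    have : (n:ℝ) < m + 1 := by linarith
    have : n < m + 1 := by exact_mod_cast this
    omega
  rcases hnm.eq_or_lt with rfl | hlt
  · have : min (3 * (x - 4 * (n:ℝ))) (x - 4 * n + 2) < min (3 * (y - 4 * (n:ℝ))) (y - 4 * n + 2) := by
      rw [lt_min_iff]
      exact ⟨lt_of_le_of_lt (min_le_left _ _) (by linarith),
        lt_of_le_of_lt (min_le_right _ _) (by linarith)⟩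
    linarith
  · have h1 : (n:ℝ) + 1 ≤ m := by exact_mod_cast hlt
    have h2 : min (3 * (x - 4 * (n:ℝ))) (x - 4 * n + 2) < 6 :=
      lt_of_le_of_lt (min_le_right _ _) (by linarith)
    have h3 : 0 ≤ min (3 * (y - 4 * (m:ℝ))) (y - 4 * m + 2) := by
      rw [le_min_iff]; constructor <;> linarith
    linarith

lemma tf_tg (y : ℝ) : tf (tg y) = y := by
  obtain ⟨n, h0, h1⟩ := per6 y
  rw [tg_eq h0 h1]
  rcases le_total (y - 6 * n) 3 with h | h
  · rw [max_eq_left (by linarith)]
    rw [tf_eq (n := n) (by linarith) (by linarith)]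
    rw [min_eq_left (by linarith)]
    ring
  · rw [max_eq_right (by linarith)]
    rw [tf_eq (n := n) (by linarith) (by linarith)]
    rw [min_eq_right (by linarith)]
    ring

noncomputable def Tiso : ℝ ≃o ℝ := StrictMono.orderIsoOfRightInverse tf tf_mono tg tf_tg

lemma Tiso_apply (x : ℝ) : Tiso x = tf x := rfl

lemma tf_add (x : ℝ) : tf (x + 4) = tf x + 6 := by
  obtain ⟨n, h0, h1⟩ := per4 x
  rw [tf_eq h0 h1, tf_eq (n := n + 1) (by push_cast; linarith) (by push_cast; linarith)]
  push_cast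
  rw [show x + 4 - 4 * ((n:ℝ) + 1) = x - 4 * n by ring]
  ring

lemma tf_one {x : ℝ} {n : ℤ} (h0 : 0 ≤ x - 4 * n) (h1 : x - 4 * n ≤ 1) : tf x = 3 * x - 6 * n := by
  rw [tf_eq h0 (by linarith), min_eq_left (by linarith)]; ring

lemma tf_two {x : ℝ} {n : ℤ} (h0 : 1 ≤ x - 4 * n) (h1 : x - 4 * n ≤ 4) : tf x = x + 2 * n + 2 := by
  rcases h1.eq_or_lt with h | h
  · rw [tf_eq (n := n + 1) (by push_cast; linarith) (by push_cast; linarith), min_eq_left (by push_cast; linarith)]
    push_cast
    linarith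
  · rw [tf_eq (by linarith) h, min_eq_right (by linarith)]; ring

/-! ### good maps -/

/-- preserves the closed set and is affine on each gap -/
def Good (C : Set ℝ) (f : ℝ ≃o ℝ) : Prop :=
  (∀ x, f x ∈ C ↔ x ∈ C) ∧
    ∀ u v, IsGap C u v → ∀ s : ℝ, 0 ≤ s → s ≤ 1 → f (u + (v - u) * s) = f u + (f v - f u) * s

lemma IsGap.map {C : Set ℝ} {f : ℝ ≃o ℝ} (hf : ∀ x, f x ∈ C ↔ x ∈ C) {u v : ℝ} (h : IsGap C u v) :
    IsGap C (f u) (f v) := by
  obtain ⟨h1, h2, h3, h4⟩ := h
  refine ⟨(hf _).2 h1, (hf _).2 h2, f.strictMono h3, ?_⟩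
  intro x hx1 hx2 hxC
  have e : f (f.symm x) = x := f.apply_symm_apply x
  rw [← e] at hx1 hx2 hxC
  exact h4 (f.symm x) (f.lt_iff_lt.1 hx1) (f.lt_iff_lt.1 hx2) ((hf _).1 hxC)

lemma Good.lft {C : Set ℝ} {f : ℝ ≃o ℝ} (hf : Good C f) {u v : ℝ} (h : IsGap C u v) (k m : ℕ)
    (hm : m ≤ 2 ^ k) : f (lft u v k m) = lft (f u) (f v) k m := by
  unfold NotRF.lft
  apply hf.2 u v h
  · positivity
  · rw [div_le_one (by positivity)]; exact_mod_cast hm

lemma Good.mem_Lam0 {C : Set ℝ} {f : ℝ ≃o ℝ} (hf : Good C f) {a b : Circle}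
    (h : (a, b) ∈ Lam0 C) : (Hm f a, Hm f b) ∈ Lam0 C := by
  rcases h with ⟨c, hc, h⟩ | ⟨p, q, ⟨u, v, hg, k, m, hm, hp, hq⟩, h⟩ <;>
    obtain ⟨rfl, rfl⟩ := Prod.mk.inj h
  · rw [Hm_one, Hm_P]
    exact Or.inl ⟨f c, (hf.1 c).2 hc, rfl⟩
  · rw [Hm_P, Hm_P]
    refine Or.inr ⟨f p, f q, ⟨f u, f v, hg.map hf.1, k, m, hm, ?_, ?_⟩, rfl⟩
    · rw [hp, hf.lft hg k m hm.le]
    · rw [hq, hf.lft hg k (m + 1) hm]

lemma Good.mem_Lam {C : Set ℝ} {f : ℝ ≃o ℝ} (hf : Good C f) {a b : Circle}
    (h : (a, b) ∈ Lam C) : (Hm f a, Hm f b) ∈ Lam C := by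
  rcases h with h | h
  · exact Or.inl (hf.mem_Lam0 h)
  · exact Or.inr (hf.mem_Lam0 h)

lemma Good.one {C : Set ℝ} : Good C 1 := ⟨fun _ => Iff.rfl, fun _ _ _ _ _ _ => rfl⟩

lemma Good.mul {C : Set ℝ} {f g : ℝ ≃o ℝ} (hf : Good C f) (hg : Good C g) : Good C (f * g) := by
  refine ⟨fun x => (hf.1 _).trans (hg.1 _), ?_⟩
  intro u v h s h0 h1
  change f (g _) = f (g u) + (f (g v) - f (g u)) * s
  rw [hg.2 u v h s h0 h1, hf.2 _ _ (h.map hg.1) s h0 h1]

lemma Good.inv {C : Set ℝ} {f : ℝ ≃o ℝ} (hf : Good C f) : Good C f⁻¹ := by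
  have e : ∀ x, f (f⁻¹ x) = x := fun x => f.apply_symm_apply x
  have e' : ∀ x, f⁻¹ (f x) = x := fun x => f.symm_apply_apply x
  have h1 : ∀ x, f⁻¹ x ∈ C ↔ x ∈ C := by
    intro x; rw [← hf.1, e]
  refine ⟨h1, ?_⟩
  intro u v h s h0 hs1
  have := hf.2 _ _ (h.map h1) s h0 hs1
  rw [e, e] at this
  rw [← this, e']

def goodSubgroup (C : Set ℝ) : Subgroup (ℝ ≃o ℝ) where
  carrier := {f | Good C f}
  mul_mem' := Good.mul
  one_mem' := Good.one
  inv_mem' := Good.inv

lemma good_A : Good KC Aiso := by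
  constructor
  · intro x
    rw [Aiso_apply]
    constructor
    · rintro ⟨n, hn⟩; exact ⟨n - 1, by convert hn using 1; push_cast; ring⟩
    · rintro ⟨n, hn⟩; exact ⟨n + 1, by convert hn using 1; push_cast; ring⟩
  · intro u v _ s _ _
    simp only [Aiso_apply]; ring

lemma good_T : Good KC Tiso := by
  constructor
  · intro x
    rw [Tiso_apply]
    obtain ⟨n, h0, h1⟩ := per4 x
    rcases le_total (x - 4 * n) 1 with h | h
    · rw [tf_one h0 h]
      rw [KC_iff (x := x) (n := 2 * n) (by push_cast; linarith) (by push_cast; linarith),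
        cantor_step]
      rcases lt_or_ge (3 * (x - 4 * n)) 2 with h2 | h2
      · rw [KC_iff (n := 3 * n) (by push_cast; linarith) (by push_cast; linarith)]
        push_cast
        rw [show 3 * x - 6 * (n:ℝ) - 2 * (3 * n) = 3 * (x - 2 * (2 * n)) by ring]
        constructor
        · exact Or.inl
        · rintro (h3 | h3)
          · exact h3
          · exfalso; have := (cantor_bounds h3).1; linarith
      · rw [KC_iff (n := 3 * n + 1) (by push_cast; linarith) (by push_cast; linarith)]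
        push_cast
        rw [show 3 * x - 6 * (n:ℝ) - 2 * (3 * n + 1) = 3 * (x - 2 * (2 * n)) - 2 by ring]
        constructor
        · exact Or.inr
        · rintro (h3 | h3)
          · exfalso; have := (cantor_bounds h3).2; linarith
          · exact h3
    · rw [tf_two h h1.le]
      rcases lt_or_ge (x - 4 * n) 2 with h2 | h2
      · rw [KC_iff (x := x) (n := 2 * n) (by push_cast; linarith) (by push_cast; linarith)]
        rw [KC_iff (n := 3 * n + 1) (by push_cast; linarith) (by push_cast; linarith)]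
        push_cast
        rw [show x + 2 * (n:ℝ) + 2 - 2 * (3 * n + 1) = x - 2 * (2 * n) by ring]
      · rw [KC_iff (x := x) (n := 2 * n + 1) (by push_cast; linarith) (by push_cast; linarith)]
        rw [KC_iff (n := 3 * n + 2) (by push_cast; linarith) (by push_cast; linarith)]
        push_cast
        rw [show x + 2 * (n:ℝ) + 2 - 2 * (3 * n + 2) = x - 2 * (2 * n + 1) by ring]
  · intro u v hg s h0 h1
    simp only [Tiso_apply]
    obtain ⟨hu, hv, huv, hno⟩ := hg
    obtain ⟨n, hn0, hn1⟩ := per4 u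
    have a1 : u ≤ u + (v - u) * s := by nlinarith
    have a2 : u + (v - u) * s ≤ v := by nlinarith
    rcases lt_or_ge (u - 4 * n) 1 with h | h
    · have hv1 : v - 4 * n ≤ 1 := by
        by_contra hc
        push Not at hc
        apply hno (4 * n + 1) (by linarith) (by linarith)
        have := odd_mem_KC (2 * n)
        convert this using 1
        push_cast; ring
      rw [tf_one hn0 h.le, tf_one (n := n) (x := v) (by linarith) hv1,
        tf_one (n := n) (by linarith) (by linarith)]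
      ring
    · have hv1 : v - 4 * n ≤ 4 := by
        by_contra hc
        push Not at hc
        apply hno (4 * n + 4) (by linarith) (by linarith)
        have := even_mem_KC (2 * n + 2)
        convert this using 1
        push_cast; ring
      rw [tf_two h hn1.le, tf_two (n := n) (x := v) (by linarith) hv1,
        tf_two (n := n) (by linarith) (by linarith)]
      ring

/-! ### The group -/

lemma comm_killed {F : Type*} [Group F] [Finite F] (a t : F) (h : t * a ^ 2 * t⁻¹ = a ^ 3) :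
    Commute (t * a * t⁻¹) a := by
  have hn : 0 < orderOf a := orderOf_pos a
  have h1 : orderOf (a ^ 2) = orderOf (a ^ 3) := by
    rw [← h]
    exact ((MulAut.conj t).orderOf_eq (a ^ 2)).symm
  rw [orderOf_pow' a two_ne_zero, orderOf_pow' a three_ne_zero] at h1
  have h2 : Nat.gcd (orderOf a) 2 = Nat.gcd (orderOf a) 3 := by
    have d1 := Nat.gcd_dvd_left (orderOf a) 2
    have d2 := Nat.gcd_dvd_left (orderOf a) 3
    have p1 := Nat.gcd_pos_of_pos_left 2 hn
    have p2 := Nat.gcd_pos_of_pos_left 3 hn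
    obtain ⟨k, hk⟩ := d1
    obtain ⟨l, hl⟩ := d2
    have q1 : orderOf a / Nat.gcd (orderOf a) 2 = k := Nat.div_eq_of_eq_mul_right p1 hk
    have q2 : orderOf a / Nat.gcd (orderOf a) 3 = l := Nat.div_eq_of_eq_mul_right p2 hl
    rw [q1, q2] at h1
    subst h1
    have hk0 : 0 < k := by
      rcases Nat.eq_zero_or_pos k with h0 | h0
      · rw [h0, mul_zero] at hk; omega
      · exact h0
    exact Nat.eq_of_mul_eq_mul_right hk0 (hk.symm.trans hl)
  have h3 : Nat.gcd (orderOf a) 2 = 1 := by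
    have d1 := Nat.gcd_dvd_right (orderOf a) 2
    have d2 := Nat.gcd_dvd_right (orderOf a) 3
    rw [← h2] at d2
    have h4 := Nat.dvd_gcd d1 d2
    rw [show Nat.gcd 2 3 = 1 from rfl] at h4
    exact Nat.dvd_one.1 h4
  have hodd : orderOf a % 2 = 1 := by
    rcases Nat.mod_two_eq_zero_or_one (orderOf a) with h0 | h0
    · exfalso
      have : 2 ∣ Nat.gcd (orderOf a) 2 := Nat.dvd_gcd (Nat.dvd_of_mod_eq_zero h0) dvd_rfl
      rw [h3] at this; norm_num at this
    · exact h0
  obtain ⟨k, hk⟩ : ∃ k, orderOf a + 1 = 2 * k := ⟨(orderOf a + 1) / 2, by omega⟩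
  have ha : a = (a ^ 2) ^ k := by
    rw [← pow_mul, ← hk, pow_succ, pow_orderOf_eq_one, one_mul]
  have hconj : t * a * t⁻¹ = a ^ (3 * k) := by
    calc t * a * t⁻¹ = t * (a ^ 2) ^ k * t⁻¹ := by rw [← ha]
      _ = (t * a ^ 2 * t⁻¹) ^ k := (conj_pow).symm
      _ = a ^ (3 * k) := by rw [h, pow_mul]
  rw [hconj]
  exact (Commute.refl a).pow_left _

lemma A_pow (n : ℕ) (x : ℝ) : (Aiso ^ n) x = x + 2 * n := by
  induction n generalizing x with
  | zero => simp
  | succ n ih =>
    rw [pow_succ, RelIso.mul_apply, ih, Aiso_apply]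
    push_cast; ring

lemma TA_rel : Tiso * Aiso ^ 2 * Tiso⁻¹ = Aiso ^ 3 := by
  rw [mul_inv_eq_iff_eq_mul]
  apply RelIso.ext
  intro x
  rw [RelIso.mul_apply, RelIso.mul_apply, A_pow, A_pow, Tiso_apply, Tiso_apply]
  have := tf_add x
  push_cast
  rw [show x + 2 * 2 = x + 4 by ring, this]
  ring

lemma comm_ne : ¬ Commute (Tiso * Aiso * Tiso⁻¹) Aiso := by
  intro h
  have h0 := congrArg (fun f : ℝ ≃o ℝ => f 0) h.eq
  simp only [RelIso.mul_apply] at h0
  have i0 : Tiso⁻¹ 0 = 0 := by
    change Tiso.symm 0 = 0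
    rw [OrderIso.symm_apply_eq, Tiso_apply, tf_one (n := 0) (by norm_num) (by norm_num)]; norm_num
  have i1 : Tiso⁻¹ (Aiso 0) = 2 / 3 := by
    change Tiso.symm (Aiso 0) = 2 / 3
    rw [OrderIso.symm_apply_eq, Tiso_apply, Aiso_apply, tf_one (n := 0) (by norm_num) (by norm_num)]
    norm_num
  rw [i0, i1] at h0
  simp only [Tiso_apply, Aiso_apply] at h0
  rw [tf_two (n := 0) (by norm_num) (by norm_num), tf_two (n := 0) (by norm_num) (by norm_num)] at h0
  norm_num at h0

/-- the extension to the circle as a group homomorphism -/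
noncomputable def HmHom : (ℝ ≃o ℝ) →* (Circle ≃ₜ Circle) where
  toFun := Hm
  map_one' := by
    ext z
    rcases circle_cases z with rfl | ⟨x, rfl⟩
    · rw [Hm_one]; rfl
    · rw [Hm_P]; rfl
  map_mul' f g := by
    ext z
    change (Hm (f * g) z : ℂ) = (Hm f (Hm g z) : ℂ)
    rcases circle_cases z with rfl | ⟨x, rfl⟩
    · rw [Hm_one, Hm_one, Hm_one]
    · rw [Hm_P, Hm_P, Hm_P]; rfl

lemma HmHom_injective : Function.Injective HmHom := by
  intro f g h
  ext x
  have := congrArg (fun φ : Circle ≃ₜ Circle => φ (P x)) h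
  change Hm f (P x) = Hm g (P x) at this
  rw [Hm_P, Hm_P] at this
  exact P_injective this

/-- There is a finitely generated group acting faithfully on the circle by orientation preserving
homeomorphisms, preserving a very full lamination (whose gaps moreover fill a dense part of the
disc), and containing a nontrivial element that every homomorphism to a finite group kills. -/
theorem result :
    ∃ (G : Type) (_ : Group G) (ρ : G →* (Circle ≃ₜ Circle)) (Λ : Set (Circle × Circle)),
      Group.FG G ∧ Function.Injective ρ ∧ (∀ g : G, OrientationPreserving (ρ g)) ∧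
      IsLamination Λ ∧ VeryFull Λ ∧
      Metric.ball (0 : ℂ) 1 ⊆ closure (complementary Λ) ∧
      (∀ (g : G) (a b : Circle), (ρ g a, ρ g b) ∈ Λ ↔ (a, b) ∈ Λ) ∧
      ∃ g : G, g ≠ 1 ∧ ∀ (F : Type) [Group F] [Finite F] (φ : G →* F), φ g = 1 := by
  classical
  set S : Subgroup (ℝ ≃o ℝ) := Subgroup.closure {Aiso, Tiso} with hS
  have hA : Aiso ∈ S := Subgroup.subset_closure (by simp)
  have hT : Tiso ∈ S := Subgroup.subset_closure (by simp)
  have hgood : S ≤ goodSubgroup KC := by
    rw [hS, Subgroup.closure_le]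
    rintro f (rfl | rfl)
    · exact good_A
    · exact good_T
  refine ⟨S, inferInstance, HmHom.comp S.subtype, Lam KC, ?_, ?_, ?_,
    isLamination_Lam isClosed_KC KC_below KC_above, veryFull_Lam isClosed_KC KC_below KC_above,
    dense_Lam isClosed_KC KC_below KC_above KC_empty_interior, ?_, ?_⟩
  · rw [Group.fg_iff_subgroup_fg]
    exact ⟨{Aiso, Tiso}, by rw [hS]; simp⟩
  · exact HmHom_injective.comp S.subtype_injective
  · intro g; exact Hm_orientation _
  · intro g a b
    have hg : Good KC (g : ℝ ≃o ℝ) := hgood g.2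
    constructor
    · intro h
      have h2 := hg.inv.mem_Lam h
      have e : ∀ z : Circle, Hm (g : ℝ ≃o ℝ)⁻¹ (Hm (g : ℝ ≃o ℝ) z) = z := by
        intro z
        have : HmHom ((g : ℝ ≃o ℝ)⁻¹ * (g : ℝ ≃o ℝ)) z = z := by
          rw [inv_mul_cancel, map_one]; rfl
        rw [map_mul] at this
        exact this
      have h3 : (Hm (g : ℝ ≃o ℝ)⁻¹ (Hm (g : ℝ ≃o ℝ) a), Hm (g : ℝ ≃o ℝ)⁻¹ (Hm (g : ℝ ≃o ℝ) b)) ∈ Lam KC := h2
      rwa [e, e] at h3
    · intro h
      exact hg.mem_Lam h
  · set α : S := ⟨Aiso, hA⟩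
    set τ : S := ⟨Tiso, hT⟩
    refine ⟨(τ * α * τ⁻¹) * α * (τ * α * τ⁻¹)⁻¹ * α⁻¹, ?_, ?_⟩
    · intro h
      have h2 : (τ * α * τ⁻¹) * α = α * (τ * α * τ⁻¹) := by
        rw [mul_inv_eq_one, mul_inv_eq_iff_eq_mul] at h
        exact h
      have h3 := congrArg (fun g : S => (g : ℝ ≃o ℝ)) h2
      exact comm_ne h3
    · intro F _ _ φ
      have hc : Commute (φ τ * φ α * (φ τ)⁻¹) (φ α) := by
        apply comm_killed
        rw [← map_inv, ← map_pow, ← map_pow, ← map_mul, ← map_mul]
        congr 1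
        apply Subtype.ext
        exact TA_rel
      have e : φ (τ * α * τ⁻¹ * α * (τ * α * τ⁻¹)⁻¹ * α⁻¹) =
          (φ τ * φ α * (φ τ)⁻¹) * φ α * (φ τ * φ α * (φ τ)⁻¹)⁻¹ * (φ α)⁻¹ := by
        simp only [map_mul, map_inv]
      rw [e, hc.eq]
      group

end Pool.Agent.Results.MP_939d63_gt.NotRF
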